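import Pool.Agent.Run7.h622.Hz.Fib

/-!
# From the blown up plane to the plane
-/

namespace Run7.h622.Hz

open Pool.Agent.N197.Pln MvPolynomial IntermediateField

/-- the exponent of the homogenized monomial -/
noncomputable def homExp (β : ℕ) (m : Fin 2 →₀ ℕ) : Fin 3 →₀ ℕ :=
  Finsupp.equivFunOnFinite.symm ![m 0, m 1, β - (m 0 + m 1)]

/-- the form of degree `β` with a given dehomogenization -/
noncomputable def homog (β : ℕ) (f : MvPolynomial (Fin 2) ℂ) : MvPolynomial (Fin 3) ℂ :=
  ∑ m ∈ f.support, monomial (homExp β m) (coeff m f)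

theorem homog_isHomogeneous {β : ℕ} {f : MvPolynomial (Fin 2) ℂ}
    (h : ∀ m ∈ f.support, m 0 + m 1 ≤ β) : (homog β f).IsHomogeneous β := by
  unfold homog
  apply IsHomogeneous.sum
  intro m hm
  apply isHomogeneous_monomial
  rw [Finsupp.degree_eq_sum, Fin.sum_univ_three]
  have := h m hm
  simp only [homExp, Finsupp.equivFunOnFinite_symm_apply_apply]
  simp
  omega

theorem aeval_homog {E : Type*} [CommRing E] [Algebra ℂ E] (β : ℕ) (f : MvPolynomial (Fin 2) ℂ)
    (x y : E) : aeval ![x, y, 1] (homog β f) = aeval ![x, y] f := by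
  have h1 : aeval ![x, y] f = ∑ m ∈ f.support, algebraMap ℂ E (coeff m f) * (x ^ m 0 * y ^ m 1) := by
    rw [aeval_def, eval₂_eq']
    apply Finset.sum_congr rfl
    intro m _
    rw [Fin.prod_univ_two]
    rfl
  rw [h1]
  unfold homog
  rw [map_sum]
  apply Finset.sum_congr rfl
  intro m _
  rw [aeval_monomial, Finsupp.prod_fintype _ _ (fun i => pow_zero _), Fin.prod_univ_three]
  simp [homExp]

theorem homog_ne_zero {β : ℕ} {f : MvPolynomial (Fin 2) ℂ} (hf : f ≠ 0) : homog β f ≠ 0 := by
  intro h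
  apply hf
  apply MvPolynomial.funext
  intro p
  rw [map_zero]
  have h1 := aeval_homog (E := ℂ) β f (p 0) (p 1)
  rw [h, map_zero] at h1
  have h2 : (![p 0, p 1] : Fin 2 → ℂ) = p := by
    funext i
    fin_cases i <;> rfl
  rw [h2] at h1
  exact h1.symm

theorem eq_C_of_support {f : MvPolynomial (Fin 2) ℂ} (h : ∀ m ∈ f.support, m 0 + m 1 ≤ 0) :
    f = C (coeff 0 f) := by
  ext m
  rw [coeff_C]
  by_cases hm : m = 0
  · subst hm
    simp
  · rw [if_neg (fun h => hm h.symm)]
    by_contra h0
    apply hm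
    have h1 := h m (mem_support_iff.mpr h0)
    ext i
    fin_cases i
    · show m 0 = 0
      omega
    · show m 1 = 0
      omega

/-- a cover of the plane of degree at most two for the characters `1` and `-1` -/
theorem dominated_plane {ι : Type} [Fintype ι] {n : ℕ} [NeZero n]
    {f : ι → MvPolynomial (Fin 2) ℂ} {β : ι → ℕ} (hf : ∀ i, f i ≠ 0)
    (hβ : ∀ i, ∀ m ∈ (f i).support, m 0 + m 1 ≤ β i) {a : ι → ZMod n} (hsum : ∑ i, β i • a i = 0)
    (h1 : lineDegree n β a ≤ 2) (h2 : lineDegree n β (fun i => -(a i)) ≤ 2) :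
    AffineDominatedByCurves n f a := by
  classical
  let F : ι → MvPolynomial (Fin 3) ℂ := fun i => if β i = 0 then X 2 else homog (β i) (f i)
  let d : ι → ℕ := fun i => if β i = 0 then 1 else β i
  let b : ι → ZMod n := fun i => if β i = 0 then 0 else a i
  have hF : ∀ i, IsPlaneCurve (F i) (d i) := by
    intro i
    by_cases h : β i = 0
    · simp only [F, d, if_pos h]
      exact ⟨one_pos, isHomogeneous_X _ _, X_ne_zero _⟩
    · simp only [F, d, if_neg h]
      exact ⟨Nat.pos_of_ne_zero h, homog_isHomogeneous (hβ i), homog_ne_zero (hf i)⟩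
  have hsum' : ∑ i, d i • b i = 0 := by
    rw [← hsum]
    apply Finset.sum_congr rfl
    intro i _
    by_cases h : β i = 0
    · simp [d, b, h]
    · simp [d, b, h]
  have hdeg : lineDegree n d b = lineDegree n β a := by
    unfold lineDegree
    apply Finset.sum_congr rfl
    intro i _
    by_cases h : β i = 0
    · simp [d, b, h]
    · simp [d, b, h]
  have hdeg' : lineDegree n d (fun i => -(b i)) = lineDegree n β (fun i => -(a i)) := by
    unfold lineDegree
    apply Finset.sum_congr rfl
    intro i _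
    by_cases h : β i = 0
    · simp [d, b, h]
    · simp [d, b, h]
  obtain ⟨Ω, _, _, K₁, K₂, hK, x, hx, y, hy, z, hz, hind, hval⟩ :=
    dominated hF hsum' (by rw [hdeg]; exact h1) (by rw [hdeg']; exact h2)
  obtain ⟨r, hr⟩ := IsAlgClosed.exists_pow_nat_eq
    (∏ i, if β i = 0 then (coeff 0 (f i)) ^ (a i).val else 1 : ℂ)
    (Nat.pos_of_ne_zero (NeZero.ne n))
  refine ⟨Ω, inferInstance, inferInstance, K₁, K₂, hK, x, hx, y, hy, z * algebraMap ℂ Ω r,
    mul_mem hz (IntermediateField.algebraMap_mem _ r), hind, ?_⟩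
  rw [mul_pow, hval, ← map_pow, hr, map_prod, ← Finset.prod_mul_distrib]
  apply Finset.prod_congr rfl
  intro i _
  by_cases h : β i = 0
  · have h3 : f i = C (coeff 0 (f i)) := eq_C_of_support fun m hm => by
      have := hβ i m hm
      omega
    have h4 : aeval ![x, y] (f i) = algebraMap ℂ Ω (coeff 0 (f i)) := by
      conv_lhs => rw [h3]
      rw [algHom_C]
    rw [h4]
    simp [F, b, h]
  · simp only [F, b, if_neg h, map_one, mul_one, aeval_homog]

end Run7.h622.Hz
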