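import Pool.Agent.Run7.h622.Hz.Weier
import Pool.Agent.Run7.h622.Hz.Plane

/-!
# The exceptional covers of the quadric cone
-/

namespace Run7.h622.Hz

open Pool.Agent.N197.Pln MvPolynomial IntermediateField

/-- the weighted degree is at most `N`, where `x` has the weight `1` and `y` has the weight `e` -/
def Wt (e N : ℕ) (f : MvPolynomial (Fin 2) ℂ) : Prop := ∀ m ∈ f.support, m 0 + e * m 1 ≤ N

theorem Wt.one (e : ℕ) : Wt e 0 1 := by
  intro m hm
  rw [mem_support_iff, coeff_one] at hm
  have : m = 0 := by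
    by_contra h
    exact hm (if_neg (fun h' => h h'.symm))
  rw [this]
  simp

theorem Wt.mul {e N M : ℕ} {f g : MvPolynomial (Fin 2) ℂ} (hf : Wt e N f) (hg : Wt e M g) :
    Wt e (N + M) (f * g) := by
  classical
  intro m hm
  obtain ⟨a, ha, b, hb, rfl⟩ := Finset.mem_add.mp (support_mul f g hm)
  have h1 := hf a ha
  have h2 := hg b hb
  simp only [Finsupp.add_apply]
  nlinarith

theorem Wt.prod {e : ℕ} {ι : Type*} (S : Finset ι) {f : ι → MvPolynomial (Fin 2) ℂ} {N : ι → ℕ}
    (h : ∀ i ∈ S, Wt e (N i) (f i)) : Wt e (∑ i ∈ S, N i) (∏ i ∈ S, f i) := by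
  classical
  induction S using Finset.induction_on with
  | empty => simpa using Wt.one e
  | insert a S ha ih =>
    rw [Finset.prod_insert ha, Finset.sum_insert ha]
    exact (h a (Finset.mem_insert_self _ _)).mul (ih fun i hi => h i (Finset.mem_insert_of_mem hi))

theorem Wt.mono {e N M : ℕ} {f : MvPolynomial (Fin 2) ℂ} (h : Wt e N f) (hNM : N ≤ M) : Wt e M f :=
  fun m hm => le_trans (h m hm) hNM

theorem Wt.const {e : ℕ} {f : MvPolynomial (Fin 2) ℂ} (h : Wt e 0 f) (h1 : f.degreeOf 1 ≤ 0) :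
    f = C (coeff 0 f) := by
  apply eq_C_of_support
  intro m hm
  have h2 := h m hm
  have h3 := le_trans (monomial_le_degreeOf 1 hm) h1
  omega

theorem exists_lin {P : MvPolynomial (Fin 2) ℂ} (h1 : P.degreeOf 1 ≤ 1) (h2 : Wt 2 2 P) :
    ∃ (r₀ : ℂ) (r₂ : Polynomial ℂ), r₂.natDegree ≤ 2 ∧ ∀ (E : Type) [CommRing E] [Algebra ℂ E]
      (x y : E), aeval ![x, y] P = algebraMap ℂ E r₀ * y + Polynomial.aeval x r₂ := by
  have d₁ : (ycoeff P 1).natDegree ≤ 0 := natDegree_ycoeff_le fun m hm h => by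
    have := h2 m hm
    omega
  have d₀ : (ycoeff P 0).natDegree ≤ 2 := natDegree_ycoeff_le fun m hm h => by
    have := h2 m hm
    omega
  obtain ⟨k, hk⟩ := Polynomial.natDegree_eq_zero.mp (Nat.le_zero.mp d₁)
  refine ⟨k, ycoeff P 0, d₀, ?_⟩
  intro E _ _ x y
  rw [aeval_eq_sum_ycoeff h1]
  simp only [Finset.sum_range_succ, Finset.sum_range_zero, ← hk, Polynomial.aeval_C]
  ring

section

variable {Ω : Type} [Field Ω] [Algebra ℂ Ω] [IsAlgClosed Ω]

/-- two parabolas with opposite residues, and one with the residue one half -/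
theorem pencil_point {s t : Ω} (hst : AlgebraicIndependent ℂ ![s, t]) {u₀ v₀ r₀ : ℂ}
    {u₂ v₂ r₂ : Polynomial ℂ} (hu : u₂.natDegree ≤ 2) (hv : v₂.natDegree ≤ 2)
    (hr : r₂.natDegree ≤ 2) (a b h : ℕ) :
    ∃ x ∈ cl s ⊔ cl t, ∃ y ∈ cl s ⊔ cl t, ∃ w ∈ cl s ⊔ cl t, AlgebraicIndependent ℂ ![x, y] ∧
      ∃ c, Split s t c ∧ (algebraMap ℂ Ω u₀ * y + Polynomial.aeval x u₂) ^ a *
        (algebraMap ℂ Ω v₀ * y + Polynomial.aeval x v₂) ^ b *
        (algebraMap ℂ Ω r₀ * y + Polynomial.aeval x r₂) ^ h = w ^ (a + b) * c := by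
  have hs : Transcendental ℂ s := ((pair_iff s t).mp hst).1
  have hle : cl s ≤ cl s ⊔ cl t := le_sup_left
  have hkc : ∀ z : cl s, algebraMap (cl s) Ω z = (z : Ω) := fun _ => rfl
  let s' : cl s := ⟨s, self_mem_cl s⟩
  have hcs : ∀ q : Polynomial ℂ, Polynomial.aeval s q ∈ cl s := fun q => by
    rw [← coe_aeval s' q]
    exact SetLike.coe_mem _
  have hC : ∀ z : ℂ, algebraMap ℂ Ω z ∈ cl s ⊔ cl t := fun z => IntermediateField.algebraMap_mem _ z
  -- a point over `x = s`
  obtain ⟨y₀, hy₀, hy₀', hsp⟩ := exists_split_values hst {()}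
    (fun _ => Polynomial.C (algebraMap ℂ (cl s) r₀) * Polynomial.X +
      Polynomial.C (Polynomial.aeval s' r₂)) (by
      rw [Finset.sum_singleton]
      refine le_trans (b := 1) ?_ (by norm_num)
      compute_degree)
  have hR : Split s t (algebraMap ℂ Ω r₀ * y₀ + Polynomial.aeval s r₂) := by
    have h1 := hsp () (by simp)
    simp only [map_add, map_mul, Polynomial.aeval_C, Polynomial.aeval_X, hkc, coe_aeval, s'] at h1
    exact h1
  have hind₀ : AlgebraicIndependent ℂ ![s, y₀] := pair_of_cl (self_mem_cl s) hs hy₀'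
  by_cases hA : u₀ = 0 ∧ v₀ = 0
  · obtain ⟨rfl, rfl⟩ := hA
    refine ⟨s, hle (self_mem_cl s), y₀, hy₀, 1, one_mem _, hind₀, _,
      (((Split.left (hcs u₂)).pow a).mul ((Split.left (hcs v₂)).pow b)).mul (hR.pow h), ?_⟩
    simp
  by_cases hB : Polynomial.C u₀ * v₂ = Polynomial.C v₀ * u₂
  · have hB' := congrArg (Polynomial.aeval s) hB
    simp only [map_mul, Polynomial.aeval_C] at hB'
    by_cases hu0 : u₀ = 0
    · have hv0 : v₀ ≠ 0 := fun h => hA ⟨hu0, h⟩
      have hv0' : algebraMap ℂ Ω v₀ ≠ 0 := by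
        rw [Ne, FaithfulSMul.algebraMap_eq_zero_iff]
        exact hv0
      have hu2 : Polynomial.aeval s u₂ = 0 := by
        rw [hu0, map_zero, zero_mul] at hB'
        exact (mul_eq_zero.mp hB'.symm).resolve_left hv0'
      refine ⟨s, hle (self_mem_cl s), y₀, hy₀, algebraMap ℂ Ω v₀ * y₀ + Polynomial.aeval s v₂,
        add_mem (mul_mem (hC _) hy₀) (hle (hcs _)), hind₀, _,
        ((Split.left (zero_mem (cl s))).pow a).mul (hR.pow h), ?_⟩
      rw [hu0, hu2, map_zero, zero_mul, zero_add, pow_add]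
      by_cases ha : a = 0
      · subst ha
        simp
      · rw [zero_pow ha]
        ring
    · have hu0' : algebraMap ℂ Ω u₀ ≠ 0 := by
        rw [Ne, FaithfulSMul.algebraMap_eq_zero_iff]
        exact hu0
      refine ⟨s, hle (self_mem_cl s), y₀, hy₀, algebraMap ℂ Ω u₀ * y₀ + Polynomial.aeval s u₂,
        add_mem (mul_mem (hC _) hy₀) (hle (hcs _)), hind₀, _,
        ((Split.left (complex_mem_cl s (v₀ / u₀))).pow b).mul (hR.pow h), ?_⟩
      have h1 : algebraMap ℂ Ω v₀ * y₀ + Polynomial.aeval s v₂ = algebraMap ℂ Ω (v₀ / u₀) *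
          (algebraMap ℂ Ω u₀ * y₀ + Polynomial.aeval s u₂) := by
        rw [map_div₀]
        field_simp
        linear_combination hB'
      rw [h1, mul_pow]
      ring
  · -- the pencil
    have hden : (algebraMap ℂ (cl s) u₀ - s' * algebraMap ℂ (cl s) v₀) ≠ 0 := by
      intro h0
      have h1 : algebraMap ℂ Ω u₀ - s * algebraMap ℂ Ω v₀ = 0 := congrArg (fun z : cl s => (z : Ω)) h0
      by_cases hv0 : v₀ = 0
      · rw [hv0, map_zero, mul_zero, sub_zero, FaithfulSMul.algebraMap_eq_zero_iff] at h1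
        exact hA ⟨h1, hv0⟩
      · have hv0' : algebraMap ℂ Ω v₀ ≠ 0 := by
          rw [Ne, FaithfulSMul.algebraMap_eq_zero_iff]
          exact hv0
        apply hs
        have : s = algebraMap ℂ Ω (u₀ / v₀) := by
          rw [map_div₀]
          field_simp
          linear_combination -h1
        rw [this]
        exact isAlgebraic_algebraMap _
    set D : cl s := algebraMap ℂ (cl s) u₀ - s' * algebraMap ℂ (cl s) v₀ with hD
    let φ := algebraMap ℂ (cl s)
    let Y : Polynomial (cl s) := Polynomial.C D⁻¹ * (Polynomial.C s' * v₂.map φ - u₂.map φ)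
    have hY : Y.natDegree ≤ 2 := by
      refine le_trans (Polynomial.natDegree_C_mul_le _ _) ?_
      refine le_trans (Polynomial.natDegree_sub_le _ _) (max_le ?_ ?_)
      · exact le_trans (Polynomial.natDegree_C_mul_le _ _)
          (le_trans Polynomial.natDegree_map_le hv)
      · exact le_trans Polynomial.natDegree_map_le hu
    obtain ⟨x, hx, hx', hsp'⟩ := exists_split_values hst {()}
      (fun _ => Polynomial.C (φ r₀) * Y + r₂.map φ) (by
        rw [Finset.sum_singleton]
        refine Polynomial.natDegree_add_le_of_degree_le ?_ (le_trans Polynomial.natDegree_map_le hr)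
        exact le_trans (Polynomial.natDegree_C_mul_le _ _) hY)
    have hR' : Split s t (algebraMap ℂ Ω r₀ * Polynomial.aeval x Y + Polynomial.aeval x r₂) := by
      have h1 := hsp' () (by simp)
      simp only [map_add, map_mul, Polynomial.aeval_C, Polynomial.aeval_map_algebraMap, φ] at h1
      exact h1
    have hYv : (D : Ω) * Polynomial.aeval x Y =
        s * Polynomial.aeval x v₂ - Polynomial.aeval x u₂ := by
      simp only [Y, map_sub, map_mul, Polynomial.aeval_C, Polynomial.aeval_map_algebraMap, φ, hkc]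
      rw [← mul_assoc, IntermediateField.coe_inv, mul_inv_cancel₀ (by
        intro h0
        exact hden (Subtype.ext h0)), one_mul]
    have hDv : (D : Ω) = algebraMap ℂ Ω u₀ - s * algebraMap ℂ Ω v₀ := rfl
    have hD0 : (D : Ω) ≠ 0 := fun h0 => hden (Subtype.ext h0)
    have hmem : Polynomial.aeval x Y ∈ cl s ⊔ cl t := aeval_mem_sup hx Y
    have hsup : ∀ q : Polynomial ℂ, Polynomial.aeval x q ∈ cl s ⊔ cl t := by
      intro q
      have h1 := aeval_mem_sup hx (q.map φ)
      rw [Polynomial.aeval_map_algebraMap] at h1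
      exact h1
    have hrel : algebraMap ℂ Ω u₀ * Polynomial.aeval x Y + Polynomial.aeval x u₂ =
        s * (algebraMap ℂ Ω v₀ * Polynomial.aeval x Y + Polynomial.aeval x v₂) := by
      rw [hDv] at hYv
      linear_combination hYv
    have hind : AlgebraicIndependent ℂ ![x, s] := pair_symm (pair_of_cl (self_mem_cl s) hs hx')
    have hq0 : algebraMap ℂ Ω v₀ * Polynomial.aeval x Y + Polynomial.aeval x v₂ ≠ 0 := by
      intro h0
      rw [h0, mul_zero] at hrel
      have h1 : Polynomial.aeval x (Polynomial.C u₀ * v₂ - Polynomial.C v₀ * u₂) = 0 := by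
        simp only [map_sub, map_mul, Polynomial.aeval_C]
        linear_combination algebraMap ℂ Ω u₀ * h0 - algebraMap ℂ Ω v₀ * hrel
      apply ((pair_iff x s).mp hind).1
      exact ⟨_, sub_ne_zero.mpr hB, h1⟩
    refine ⟨x, hx, Polynomial.aeval x Y, hmem,
      algebraMap ℂ Ω v₀ * Polynomial.aeval x Y + Polynomial.aeval x v₂,
      add_mem (mul_mem (hC _) hmem) (hsup _), ?_, _,
      ((Split.left (self_mem_cl s)).pow a).mul (hR'.pow h), ?_⟩
    · refine pair_of_pair hind fun hy => ?_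
      have h1 : s = (algebraMap ℂ Ω u₀ * Polynomial.aeval x Y + Polynomial.aeval x u₂) *
          (algebraMap ℂ Ω v₀ * Polynomial.aeval x Y + Polynomial.aeval x v₂)⁻¹ := by
        rw [hrel]
        field_simp
      have hCa : ∀ z : ℂ, IsAlgebraic (adjoin ℂ {x}) (algebraMap ℂ Ω z) := fun z =>
        isAlgebraic_of_mem (IntermediateField.algebraMap_mem _ z)
      have hpa : ∀ q : Polynomial ℂ, IsAlgebraic (adjoin ℂ {x}) (Polynomial.aeval x q) := fun q =>
        isAlgebraic_of_mem (aeval_mem_adjoin x q)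
      rw [h1]
      exact (((hCa _).mul hy).add (hpa _)).mul (((hCa _).mul hy).add (hpa _)).inv
    · rw [hrel, mul_pow]
      ring

end

end Run7.h622.Hz
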