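import Pool.Agent.N197.Pln.QMain

/-!
# Covers of Hirzebruch surfaces: the fibres, and the projective plane
-/

namespace Run7.h622.Hz

open Pool.Agent.N197.Pln MvPolynomial IntermediateField

section

variable {ι : Type} [Fintype ι] {n : ℕ} [NeZero n]

/-- one more component, with the residue which makes the total degree zero -/
def extD (α : ι → ℕ) : Option ι → ℕ := fun o => o.elim 1 α

/-- the residues, with the one of the negative section -/
def extA (α : ι → ℕ) (a : ι → ZMod n) : Option ι → ZMod n := fun o => o.elim (-∑ i, α i • a i) a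

/-- the equations, with the one of the section at infinity -/
noncomputable def extF (f : ι → MvPolynomial (Fin 2) ℂ) : Option ι → MvPolynomial (Fin 2) ℂ :=
  fun o => o.elim 1 f

theorem sum_ext (α : ι → ℕ) (a : ι → ZMod n) : ∑ o, extD α o • extA α a o = 0 := by
  rw [Fintype.sum_option]
  simp [extD, extA]

theorem extA_neg (α : ι → ℕ) (a : ι → ZMod n) :
    extA α (fun i => -(a i)) = fun o => -(extA α a o) := by
  funext o
  cases o with
  | none => simp [extA]
  | some i => rfl

theorem extA_smul (α : ι → ℕ) (a : ι → ZMod n) (k : ℤ) :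
    extA α (fun i => k • a i) = fun o => k • extA α a o := by
  funext o
  cases o with
  | none =>
    simp only [extA, Option.elim]
    rw [smul_neg, Finset.smul_sum]
    congr 1
    apply Finset.sum_congr rfl
    intro i _
    rw [smul_comm]
  | some i => rfl

theorem lineDegree_ext (α : ι → ℕ) (a : ι → ZMod n) : lineDegree n (extD α) (extA α a) =
    ((-∑ i, α i • a i : ZMod n).val : ℚ) / n + lineDegree n α a := by
  unfold lineDegree
  rw [Fintype.sum_option]
  simp [extD, extA]

theorem lineDegree_int {d : ι → ℕ} {a : ι → ZMod n} (h : ∑ i, d i • a i = 0) :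
    ∃ m : ℕ, lineDegree n d a = m := by
  obtain ⟨m, hm⟩ := sum_val h
  refine ⟨m, ?_⟩
  have hn : (n : ℚ) ≠ 0 := Nat.cast_ne_zero.mpr (NeZero.ne n)
  unfold lineDegree
  rw [← Finset.sum_div, div_eq_iff hn]
  have : ((∑ i, d i * (a i).val : ℕ) : ℚ) = ((n * m : ℕ) : ℚ) := by rw [hm]
  push_cast at this
  rw [this]
  ring

theorem ext_int (α : ι → ℕ) (a : ι → ZMod n) : ∃ m : ℕ, lineDegree n (extD α) (extA α a) = m :=
  lineDegree_int (sum_ext α a)

theorem ext_lt (α : ι → ℕ) (a : ι → ZMod n) :
    lineDegree n (extD α) (extA α a) < lineDegree n α a + 1 := by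
  rw [lineDegree_ext]
  have hn : (0 : ℚ) < n := Nat.cast_pos.mpr (Nat.pos_of_ne_zero (NeZero.ne n))
  have h1 : ((-∑ i, α i • a i : ZMod n).val : ℚ) / n < 1 := by
    rw [div_lt_one hn]
    exact_mod_cast ZMod.val_lt _
  linarith

/-- the integral degree is at most one when the fractional degree is -/
theorem ext_le_one {α : ι → ℕ} {a : ι → ZMod n} (h : lineDegree n α a ≤ 1) :
    lineDegree n (extD α) (extA α a) ≤ 1 := by
  obtain ⟨m, hm⟩ := ext_int α a
  have h1 := ext_lt α a
  rw [hm] at h1 ⊢
  have h2 : (m : ℚ) < 2 := by linarith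
  have h3 : m < 2 := by exact_mod_cast h2
  have h4 : m ≤ 1 := by omega
  exact_mod_cast h4

theorem lineDegree_nonneg (d : ι → ℕ) (a : ι → ZMod n) : 0 ≤ lineDegree n d a := by
  unfold lineDegree
  apply Finset.sum_nonneg
  intro i _
  positivity

theorem of_option {f : ι → MvPolynomial (Fin 2) ℂ} {α : ι → ℕ} {a : ι → ZMod n}
    (h : AffineDominatedByCurves n (extF f) (extA α a)) : AffineDominatedByCurves n f a := by
  obtain ⟨Ω, _, _, K₁, K₂, hK, x, hx, y, hy, z, hz, hind, hval⟩ := h
  refine ⟨Ω, inferInstance, inferInstance, K₁, K₂, hK, x, hx, y, hy, z, hz, hind, ?_⟩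
  rw [hval, Fintype.prod_option]
  simp [extF, extA]

/-- the number of branch points in the fibres of the ruling -/
def branchNumber (α : ι → ℕ) (a : ι → ZMod n) : ℕ :=
  ∑ o ∈ Finset.univ.filter (fun o => extA α a o ≠ 0), extD α o

theorem ext_add_neg (α : ι → ℕ) (a : ι → ZMod n) :
    lineDegree n (extD α) (extA α a) + lineDegree n (extD α) (extA α (fun i => -(a i))) =
      branchNumber α a := by
  rw [extA_neg]
  exact lineDegree_add_neg _ _

theorem branchNumber_le (α : ι → ℕ) (a : ι → ZMod n) : branchNumber α a ≤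
    ∑ i ∈ Finset.univ.filter (fun i => a i ≠ 0), α i + 1 := by
  unfold branchNumber
  rw [Finset.sum_filter, Fintype.sum_option, Finset.sum_filter, add_comm]
  apply Nat.add_le_add
  · exact le_of_eq rfl
  · simp only [extD, Option.elim]
    split_ifs <;> omega

/-- at most three branch points in the fibres -/
theorem dominated_of_fibre {f : ι → MvPolynomial (Fin 2) ℂ} {α : ι → ℕ} {a : ι → ZMod n}
    (hf : ∀ i, (f i).degreeOf 1 ≤ α i) (h : branchNumber α a ≤ 3) :
    AffineDominatedByCurves n f a := by
  apply of_option (α := α)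
  apply AffineDominatedByCurves.swap
  refine fibre_three (d := extD α) ?_ (sum_ext α a) h
  intro o
  have h1 := degreeOf_rename_of_injective (p := extF f o) (Equiv.swap (0 : Fin 2) 1).injective 1
  rw [Equiv.swap_apply_right] at h1
  rw [h1]
  cases o with
  | none =>
    have : extF f none = 1 := rfl
    rw [this, degreeOf_one]
    exact Nat.zero_le _
  | some i => exact hf i

theorem bidegree_ext {f : ι → MvPolynomial (Fin 2) ℂ} {γ α : ι → ℕ}
    (hf : ∀ i, IsBidegreeCurve (f i) (γ i) (α i)) (o : Option ι) :
    IsBidegreeCurve (extF f o) (o.elim 0 γ) (extD α o) := by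
  cases o with
  | none =>
    refine ⟨one_ne_zero, ?_, ?_⟩
    · have : extF f none = 1 := rfl
      rw [this, degreeOf_one]
      exact Nat.zero_le _
    · have : extF f none = 1 := rfl
      rw [this, degreeOf_one]
      exact Nat.zero_le _
  | some i => exact hf i

/-- the product of two projective lines -/
theorem dominated_zero {f : ι → MvPolynomial (Fin 2) ℂ} {γ α : ι → ℕ}
    (hf : ∀ i, IsBidegreeCurve (f i) (γ i) (α i)) {a : ι → ZMod n} (hsum : ∑ i, γ i • a i = 0)
    (hpg : ∀ k : ℤ, lineDegree n α (fun i => k • a i) ≤ 1 ∨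
      lineDegree n γ (fun i => k • a i) ≤ 1) : AffineDominatedByCurves n f a := by
  apply of_option (α := α)
  have key : ∀ k : ℤ, lineDegree n (fun o : Option ι => o.elim 0 γ) (fun o => k • extA α a o) ≤ 1 ∨
      lineDegree n (extD α) (fun o => k • extA α a o) ≤ 1 := by
    intro k
    rcases hpg k with h | h
    · right
      rw [← extA_smul]
      exact ext_le_one h
    · left
      refine le_trans (le_of_eq ?_) h
      unfold lineDegree
      rw [Fintype.sum_option]
      simp [extA]
  refine affine_dominated (bidegree_ext hf) ?_ (sum_ext α a) (fun k => ?_) (fun k => ?_)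
  · rw [Fintype.sum_option]
    simp only [Option.elim, zero_smul, zero_add, extA]
    exact hsum
  · simpa only [natCast_zsmul] using key k
  · simpa only [neg_smul, natCast_zsmul] using key (-k)

end

end Run7.h622.Hz
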