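import Pool.Agent.Run7.h622.Hz.Main

/-!
# Abelian covers of Hirzebruch surfaces: the degrees
-/

namespace Run7.h622.Hz

open Pool.Agent.N197.Pln MvPolynomial

section

variable {ι : Type} [Fintype ι] {n : ℕ} [NeZero n]

theorem lineDegree_eq (d : ι → ℕ) (a : ι → ZMod n) :
    lineDegree n d a = ((∑ i, d i * (a i).val : ℕ) : ℚ) / n := by
  unfold lineDegree
  rw [← Finset.sum_div]
  push_cast
  rfl

theorem lineDegree_lin (e : ℕ) (α γ : ι → ℕ) (a : ι → ZMod n) :
    lineDegree n (fun i => e * α i + γ i) a = e * lineDegree n α a + lineDegree n γ a := by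
  unfold lineDegree
  rw [Finset.mul_sum, ← Finset.sum_add_distrib]
  apply Finset.sum_congr rfl
  intro i _
  push_cast
  ring

theorem two_mul_sum_le {d : ι → ℕ} {a : ι → ZMod n} (h : lineDegree n d a ≤ 3 / 2) :
    2 * ∑ i, d i * (a i).val ≤ 3 * n := by
  have hn : (0 : ℚ) < n := Nat.cast_pos.mpr (Nat.pos_of_ne_zero (NeZero.ne n))
  rw [lineDegree_eq, div_le_iff₀ hn] at h
  have h1 : (2 : ℚ) * ((∑ i, d i * (a i).val : ℕ) : ℚ) ≤ 3 * n := by linarith
  exact_mod_cast h1

theorem excluded {e : ℕ} (he : 1 ≤ e) {α γ : ι → ℕ} {b : ι → ZMod n}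
    (h4 : 4 ≤ branchNumber α b) (h1 : lineDegree n α b ≤ 1)
    (h2 : lineDegree n (fun i => e * α i + γ i) (fun i => -(b i)) ≤ e + 1) : False := by
  have e1 := ext_add_neg α b
  have e2 := ext_le_one h1
  have e3 := ext_lt α (fun i => -(b i))
  have e4 := lineDegree_nonneg γ (fun i => -(b i))
  rw [lineDegree_lin] at h2
  have h4' : (4 : ℚ) ≤ branchNumber α b := by exact_mod_cast h4
  have he' : (1 : ℚ) ≤ e := by exact_mod_cast he
  have h5 : 2 < lineDegree n α (fun i => -(b i)) := by linarith
  nlinarith

theorem hirzebruch {e : ℕ} {f : ι → MvPolynomial (Fin 2) ℂ} {α γ : ι → ℕ}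
    (hf : ∀ i, IsHirzebruchCurve e (f i) (α i) (γ i)) {a : ι → ZMod n}
    (hsum : ∑ i, (e * α i + γ i) • a i = 0)
    (hpg : ∀ k : ℤ, lineDegree n α (fun i => k • a i) ≤ 1 ∨
      lineDegree n (fun i => e * α i + γ i) (fun i => k • a i) ≤ e + 1) :
    AffineDominatedByCurves n f a := by
  classical
  rcases Nat.eq_zero_or_pos e with he | he
  · subst he
    refine dominated_zero (γ := γ) (α := α) (fun i => ⟨(hf i).ne_zero, ?_, (hf i).snd_le⟩) ?_ ?_
    · rw [degreeOf_le_iff]
      intro m hm
      have := (hf i).weight_le m hm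
      omega
    · rw [← hsum]
      apply Finset.sum_congr rfl
      intro i _
      rw [zero_mul, zero_add]
    · intro k
      have h := hpg k
      simpa using h
  by_cases hb : branchNumber α a ≤ 3
  · exact dominated_of_fibre (fun i => (hf i).snd_le) hb
  have h4 : 4 ≤ branchNumber α a := by omega
  have hneg : branchNumber α (fun i => -(a i)) = branchNumber α a := by
    have e1 := ext_add_neg α a
    have e2 := ext_add_neg α (fun i => -(a i))
    simp only [neg_neg] at e2
    rw [add_comm, e1] at e2
    exact_mod_cast e2.symm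
  have c1 := hpg 1
  have c2 := hpg (-1)
  simp only [one_smul, neg_smul] at c1 c2
  have hSB : lineDegree n (fun i => e * α i + γ i) a ≤ e + 1 ∧
      lineDegree n (fun i => e * α i + γ i) (fun i => -(a i)) ≤ e + 1 := by
    rcases c1 with c1 | c1
    · rcases c2 with c2 | c2
      · exfalso
        have e1 := ext_add_neg α a
        have e2 := ext_le_one c1
        have e3 := ext_le_one c2
        have h4' : (4 : ℚ) ≤ branchNumber α a := by exact_mod_cast h4
        linarith
      · exact (excluded he h4 c1 c2).elim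
    · rcases c2 with c2 | c2
      · refine (excluded (b := fun i => -(a i)) (γ := γ) he (by rw [hneg]; exact h4) c2 ?_).elim
        simpa only [neg_neg] using c1
      · exact ⟨c1, c2⟩
  have hA := lineDegree_add_neg α a
  have hB := lineDegree_add_neg (fun i => e * α i + γ i) a
  set N : ℕ := ∑ i ∈ Finset.univ.filter (fun i => a i ≠ 0), α i with hN
  set M : ℕ := ∑ i ∈ Finset.univ.filter (fun i => a i ≠ 0), γ i with hM
  have hNM : ∑ i ∈ Finset.univ.filter (fun i => a i ≠ 0), (e * α i + γ i) = e * N + M := by
    rw [hN, hM, Finset.mul_sum, ← Finset.sum_add_distrib]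
  rw [hNM] at hB
  have hN3 : 3 ≤ N := by
    have := branchNumber_le α a
    omega
  have hle : e * N + M ≤ 2 * e + 2 := by
    have h5 : ((e * N + M : ℕ) : ℚ) ≤ 2 * e + 2 := by
      rw [← hB]
      linarith [hSB.1, hSB.2]
    exact_mod_cast h5
  have hee : e * 3 ≤ e * N := Nat.mul_le_mul_left e hN3
  have he2 : e ≤ 2 := by omega
  rcases Nat.lt_or_ge e 2 with he1 | he1
  · -- the plane
    have he' : e = 1 := by omega
    subst he'
    refine dominated_plane (β := fun i => 1 * α i + γ i) (fun i => (hf i).ne_zero) ?_ hsum ?_ ?_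
    · intro i m hm
      have := (hf i).weight_le m hm
      omega
    · have := hSB.1
      norm_num at this ⊢
      exact this
    · have := hSB.2
      norm_num at this ⊢
      exact this
  · -- the quadric cone
    have he' : e = 2 := by omega
    subst he'
    have hN' : N = 3 := by omega
    have hM' : M = 0 := by omega
    have hγ : ∀ i, a i ≠ 0 → γ i = 0 := by
      intro i hi
      exact (Finset.sum_eq_zero_iff.mp hM') i (Finset.mem_filter.mpr ⟨Finset.mem_univ i, hi⟩)
    have hA3 : lineDegree n α a + lineDegree n α (fun i => -(a i)) = 3 := by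
      rw [hA, hN']
      norm_num
    have b1 := hSB.1
    have b2 := hSB.2
    rw [lineDegree_lin] at b1 b2
    have p1 := lineDegree_nonneg γ a
    have p2 := lineDegree_nonneg γ (fun i => -(a i))
    push_cast at b1 b2
    have hS : lineDegree n α a = 3 / 2 := by linarith
    have hk : ∀ k : ℤ, lineDegree n α (fun i => k • a i) ≤ 3 / 2 := by
      intro k
      rcases hpg k with h | h
      · linarith
      · rw [lineDegree_lin] at h
        have p3 := lineDegree_nonneg γ (fun i => k • a i)
        push_cast at h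
        linarith
    refine dominated_exceptional (fun i => (hf i).snd_le) ?_ hN' ?_ ?_ ?_
    · intro i hi m hm
      have := (hf i).weight_le m hm
      rw [hγ i hi] at this
      omega
    · have hn : (n : ℚ) ≠ 0 := Nat.cast_ne_zero.mpr (NeZero.ne n)
      rw [lineDegree_eq, div_eq_iff hn] at hS
      have h1 : (2 : ℚ) * ((∑ i, α i * (a i).val : ℕ) : ℚ) = 3 * n := by linarith
      exact_mod_cast h1
    · apply two_mul_sum_le
      have := hk 2
      simpa only [ofNat_smul_eq_nsmul] using this
    · apply two_mul_sum_le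
      have := hk (-2)
      simpa only [neg_smul, ofNat_smul_eq_nsmul] using this

end

/-- every cyclic quotient of an abelian cover of a Hirzebruch surface with `H² (Y, O_Y) = 0` is dominated by
a product of curves -/
theorem abelian_hirzebruch_covers {ι : Type} [Fintype ι] {e : ℕ} {f : ι → MvPolynomial (Fin 2) ℂ}
    {α γ : ι → ℕ} (hf : ∀ i, IsHirzebruchCurve e (f i) (α i) (γ i)) {G : Type} [AddCommGroup G]
    (g : ι → G) (hsum : ∑ i, (e * α i + γ i) • g i = 0)
    (hpg : ∀ (n : ℕ) [NeZero n] (χ : G →+ ZMod n), lineDegree n α (fun i => χ (g i)) ≤ 1 ∨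
      lineDegree n (fun i => e * α i + γ i) (fun i => χ (g i)) ≤ e + 1)
    (n : ℕ) [NeZero n] (χ : G →+ ZMod n) : AffineDominatedByCurves n f (fun i => χ (g i)) := by
  refine hirzebruch hf ?_ ?_
  · have h := congrArg χ hsum
    rw [map_sum, map_zero] at h
    simpa only [map_nsmul] using h
  · intro k
    exact hpg n (k • χ)

end Run7.h622.Hz
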