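import Pool.Agent.Run7.h622.Hz.Exc

/-!
# Abelian covers of Hirzebruch surfaces with `H² (Y, O_Y) = 0`
-/

namespace Run7.h622.Hz

open Pool.Agent.N197.Pln MvPolynomial IntermediateField

/-- the polynomial `f ≠ 0` in `x`, `y` defines a curve of the class `α C + γ F` on the Hirzebruch surface
`F_e`; here `F` is a fibre of the ruling and `C` is a section with the self-intersection `e`. The affine
plane with the coordinates `x`, `y` is the complement in `F_e` of the fibre `x = ∞` and of the section
`y = ∞` with the self-intersection `-e`; `x` is constant on the fibres, and `y` has a pole of order `e` along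
`x = ∞`. -/
structure IsHirzebruchCurve (e : ℕ) (f : MvPolynomial (Fin 2) ℂ) (α γ : ℕ) : Prop where
  ne_zero : f ≠ 0
  snd_le : f.degreeOf 1 ≤ α
  weight_le : ∀ m ∈ f.support, m 0 + e * m 1 ≤ e * α + γ

section

variable {ι : Type} [Fintype ι] {n : ℕ} [NeZero n]

theorem dominated_of_good {Ω : Type} [Field Ω] [Algebra ℂ Ω] {s t : Ω}
    (hst : AlgebraicIndependent ℂ ![s, t]) {f : ι → MvPolynomial (Fin 2) ℂ} {a : ι → ZMod n}
    {x y z : Ω} (hx : x ∈ cl s ⊔ cl t) (hy : y ∈ cl s ⊔ cl t) (hz : z ∈ cl s ⊔ cl t)
    (hind : AlgebraicIndependent ℂ ![x, y])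
    (h : z ^ n = ∏ i, aeval ![x, y] (f i) ^ (a i).val) : AffineDominatedByCurves n f a := by
  obtain ⟨K₁, K₂, hK, h1, h2, h3⟩ := exists_curves hst hx hy hz
  exact ⟨Ω, inferInstance, inferInstance, K₁, K₂, hK, x, h1, y, h2, z, h3, hind, h⟩

theorem unit_sum {S : Finset ι} {α : ι → ℕ} (h : ∑ i ∈ S, α i = 1) :
    ∃ p ∈ S, α p = 1 ∧ ∀ i ∈ S, i ≠ p → α i = 0 := by
  classical
  obtain ⟨p, hp, hp0⟩ : ∃ p ∈ S, α p ≠ 0 := by
    by_contra hcon
    push Not at hcon
    rw [Finset.sum_eq_zero hcon] at h
    exact zero_ne_one h
  rw [← Finset.add_sum_erase S α hp] at h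
  refine ⟨p, hp, by omega, ?_⟩
  intro i hi hip
  have h1 : ∑ j ∈ S.erase p, α j = 0 := by omega
  exact (Finset.sum_eq_zero_iff.mp h1) i (Finset.mem_erase.mpr ⟨hip, hi⟩)

/-- the exceptional case on the quadric cone -/
theorem dominated_exceptional {f : ι → MvPolynomial (Fin 2) ℂ} {α : ι → ℕ} {a : ι → ZMod n}
    (hα : ∀ i, (f i).degreeOf 1 ≤ α i) (hw : ∀ i, a i ≠ 0 → Wt 2 (2 * α i) (f i))
    (h3 : ∑ i ∈ Finset.univ.filter (fun i => a i ≠ 0), α i = 3)
    (hS : 2 * ∑ i, α i * (a i).val = 3 * n)
    (h2 : 2 * ∑ i, α i * (2 • a i).val ≤ 3 * n)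
    (h2' : 2 * ∑ i, α i * (-(2 • a i)).val ≤ 3 * n) : AffineDominatedByCurves n f a := by
  classical
  have hn : 0 < n := Nat.pos_of_ne_zero (NeZero.ne n)
  have hlt : ∀ i, (a i).val < n := fun i => ZMod.val_lt _
  have hval0 : ∀ i, (a i).val = 0 ↔ a i = 0 := fun i => ZMod.val_eq_zero _
  let XL : ℕ := ∑ i, if 0 < (a i).val ∧ 2 * (a i).val < n then α i else 0
  let XH : ℕ := ∑ i, if 2 * (a i).val = n then α i else 0
  let XG : ℕ := ∑ i, if n < 2 * (a i).val then α i else 0
  have f1 : XL + XH + XG = 3 := by
    rw [← h3, Finset.sum_filter, ← Finset.sum_add_distrib, ← Finset.sum_add_distrib]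
    apply Finset.sum_congr rfl
    intro i _
    by_cases h : a i = 0
    · have := (hval0 i).mpr h
      simp [h]
      intro h'
      omega
    · have : (a i).val ≠ 0 := fun h' => h ((hval0 i).mp h')
      rw [if_pos h]
      split_ifs <;> omega
  have hdouble : ∀ i, (2 • a i).val = if n ≤ 2 * (a i).val then 2 * (a i).val - n
      else 2 * (a i).val := by
    intro i
    have h1 : (2 • a i).val = (2 * (a i).val) % n := by
      rw [two_smul, ZMod.val_add, ← two_mul]
    rw [h1]
    have := hlt i
    split_ifs with h
    · rw [Nat.mod_eq_sub_mod h, Nat.mod_eq_of_lt (by omega)]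
    · exact Nat.mod_eq_of_lt (by omega)
  have f2 : ∑ i, α i * (2 • a i).val + n * (XH + XG) = 3 * n := by
    rw [← hS, Finset.mul_sum, ← Finset.sum_add_distrib, Finset.mul_sum, ← Finset.sum_add_distrib]
    apply Finset.sum_congr rfl
    intro i _
    rw [hdouble]
    have h1 := hlt i
    rcases Nat.lt_trichotomy (2 * (a i).val) n with h | h | h
    · rw [if_neg (by omega), if_neg (by omega), if_neg (by omega)]
      ring
    · rw [if_pos (by omega), if_pos h, if_neg (by omega)]
      have e0 : 2 * (a i).val - n = 0 := by omega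
      have e1 : 2 * (α i * (a i).val) = α i * (2 * (a i).val) := by ring
      rw [e0, e1, h]
      ring
    · rw [if_pos (by omega), if_neg (by omega), if_pos h]
      obtain ⟨k, hk⟩ := Nat.exists_eq_add_of_lt h
      have : 2 * (a i).val - n = k + 1 := by omega
      rw [this]
      have e1 : 2 * (α i * (a i).val) = α i * (2 * (a i).val) := by ring
      rw [e1, hk]
      ring
  have f3 : ∑ i, α i * (-(2 • a i)).val = n * XG := by
    have e1 : ∑ i, α i * (-(2 • a i)).val + ∑ i, α i * (2 • a i).val = n * (XL + XG) := by
      rw [← Finset.sum_add_distrib, ← Finset.sum_add_distrib, Finset.mul_sum]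
      apply Finset.sum_congr rfl
      intro i _
      rw [← mul_add, ZMod.neg_val, hdouble]
      have h1 := hlt i
      by_cases h0 : (a i).val = 0
      · have h0' : 2 • a i = 0 := by rw [(hval0 i).mp h0, smul_zero]
        rw [if_pos h0', h0]
        simp
      · rcases Nat.lt_trichotomy (2 * (a i).val) n with h | h | h
        · have h2 : 2 • a i ≠ 0 := by
            intro h'
            have := hdouble i
            rw [h', ZMod.val_zero, if_neg (by omega)] at this
            omega
          rw [if_neg h2, if_neg (by omega), if_pos ⟨by omega, h⟩, if_neg (by omega)]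
          have : n - 2 * (a i).val + 2 * (a i).val = n := by omega
          rw [this]
          ring
        · have h2 : 2 • a i = 0 := by
            rw [← ZMod.val_eq_zero, hdouble, if_pos (by omega)]
            omega
          rw [if_pos h2, if_pos (by omega), if_neg (by omega), if_neg (by omega)]
          simp
          omega
        · have h2 : 2 • a i ≠ 0 := by
            intro h'
            have := hdouble i
            rw [h', ZMod.val_zero, if_pos (by omega)] at this
            omega
          rw [if_neg h2, if_pos (by omega), if_neg (by omega), if_pos h]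
          have : n - (2 * (a i).val - n) + (2 * (a i).val - n) = n := by omega
          rw [this]
          ring
    have e2 : ∑ i, α i * (2 • a i).val = n * XL := by
      have e3 : n * (XL + XH + XG) = 3 * n := by rw [f1]; ring
      have e4 : n * (XL + XH + XG) = n * XL + n * (XH + XG) := by ring
      omega
    rw [e2] at e1
    have e5 : n * (XL + XG) = n * XL + n * XG := by ring
    omega
  have hXG : XG ≤ 1 := by
    rw [f3] at h2'
    by_contra hcon
    have : 2 ≤ XG := by omega
    nlinarith
  have hXL : XL ≤ 1 := by
    have e3 : n * (XL + XH + XG) = 3 * n := by rw [f1]; ring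
    have e4 : n * (XL + XH + XG) = n * XL + n * (XH + XG) := by ring
    by_contra hcon
    have : 2 ≤ XL := by omega
    nlinarith
  -- the relation between the residues
  have f4 : ∑ i, (if n < 2 * (a i).val then α i * (2 * (a i).val - n) else 0) =
      ∑ i, (if 0 < (a i).val ∧ 2 * (a i).val < n then α i * (n - 2 * (a i).val) else 0) := by
    have e1 : ∑ i, 2 * (α i * (a i).val) +
        ∑ i, (if 0 < (a i).val ∧ 2 * (a i).val < n then α i * (n - 2 * (a i).val) else 0) =
        n * (XL + XH + XG) +
        ∑ i, (if n < 2 * (a i).val then α i * (2 * (a i).val - n) else 0) := by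
      rw [← Finset.sum_add_distrib, ← Finset.sum_add_distrib, ← Finset.sum_add_distrib,
        Finset.mul_sum, ← Finset.sum_add_distrib]
      apply Finset.sum_congr rfl
      intro i _
      have h1 := hlt i
      by_cases h0 : (a i).val = 0
      · rw [h0]
        simp
        omega
      · rcases Nat.lt_trichotomy (2 * (a i).val) n with h | h | h
        · rw [if_pos ⟨by omega, h⟩, if_pos ⟨by omega, h⟩, if_neg (by omega), if_neg (by omega),
            if_neg (by omega)]
          obtain ⟨k, hk⟩ := Nat.exists_eq_add_of_lt h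
          have : n - 2 * (a i).val = k + 1 := by omega
          rw [this]
          have e1 : 2 * (α i * (a i).val) = α i * (2 * (a i).val) := by ring
          rw [e1]
          have : n = 2 * (a i).val + (k + 1) := by omega
          conv_rhs => rw [this]
          ring
        · rw [if_neg (by omega), if_pos h, if_neg (by omega), if_neg (by omega), if_neg (by omega)]
          have e1 : 2 * (α i * (a i).val) = α i * (2 * (a i).val) := by ring
          rw [e1, h]
          ring
        · rw [if_neg (by omega), if_neg (by omega), if_pos h, if_pos h, if_neg (by omega)]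
          obtain ⟨k, hk⟩ := Nat.exists_eq_add_of_lt h
          have : 2 * (a i).val - n = k + 1 := by omega
          rw [this]
          have e1 : 2 * (α i * (a i).val) = α i * (2 * (a i).val) := by ring
          rw [e1, hk]
          ring
    rw [← Finset.mul_sum, hS, f1] at e1
    omega
  obtain ⟨Ω, _, _, _, s, t, hst⟩ := exists_field
  -- constants
  have hconst : ∀ i, a i ≠ 0 → α i = 0 → ∀ x y : Ω, Split s t (aeval ![x, y] (f i)) := by
    intro i hi h0 x y
    have h1 : f i = C (coeff 0 (f i)) := Wt.const (e := 2) (by
      have := hw i hi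
      rw [h0, mul_zero] at this
      exact this) (by rw [← h0]; exact hα i)
    rw [h1, algHom_C]
    exact Split.left (complex_mem_cl s _)
  let H : Finset ι := Finset.univ.filter (fun i => 2 * (a i).val = n)
  have hHa : ∀ i ∈ H, a i ≠ 0 := by
    intro i hi h0
    rw [Finset.mem_filter] at hi
    rw [(hval0 i).mpr h0] at hi
    omega
  have hXH : ∑ i ∈ H, α i = XH := Finset.sum_filter _ _
  have hHdeg : (∏ i ∈ H, f i).degreeOf 1 ≤ XH := by
    rw [← hXH]
    exact le_trans (degreeOf_prod_le _ _ _) (Finset.sum_le_sum fun i _ => hα i)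
  have hHwt : Wt 2 (2 * XH) (∏ i ∈ H, f i) := by
    rw [← hXH, Finset.mul_sum]
    exact Wt.prod H fun i hi => hw i (hHa i hi)
  have hn2 : ∃ h, n = 2 * h ∧ ∀ i ∈ H, (a i).val = h := by
    have hne : H.Nonempty := by
      by_contra hcon
      rw [Finset.not_nonempty_iff_eq_empty] at hcon
      rw [hcon, Finset.sum_empty] at hXH
      omega
    obtain ⟨i, hi⟩ := hne
    rw [Finset.mem_filter] at hi
    refine ⟨(a i).val, hi.2.symm, ?_⟩
    intro j hj
    rw [Finset.mem_filter] at hj
    omega
  obtain ⟨h, hnh, hH⟩ := hn2
  have hprodH : ∀ x y : Ω, ∏ i ∈ H, aeval ![x, y] (f i) ^ (a i).val =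
      aeval ![x, y] (∏ i ∈ H, f i) ^ h := by
    intro x y
    rw [map_prod, ← Finset.prod_pow]
    apply Finset.prod_congr rfl
    intro i hi
    rw [hH i hi]
  by_cases hcase : XL = 0 ∧ XG = 0
  · -- the double cover
    have hXH3 : XH = 3 := by omega
    obtain ⟨x, hx, y, hy, w, hw', hind, c, hc, hval⟩ := goodPoint_cubic hst
      (P := ∏ i ∈ H, f i) (le_trans hHdeg (le_of_eq hXH3)) (fun m hm => by
        have := hHwt m hm
        omega)
    have hrest : Split s t (∏ i ∈ Hᶜ, aeval ![x, y] (f i) ^ (a i).val) := by
      apply Split.prod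
      intro i hi
      rw [Finset.mem_compl, Finset.mem_filter, not_and] at hi
      have hi' := hi (Finset.mem_univ i)
      by_cases h0 : a i = 0
      · rw [(hval0 i).mpr h0, pow_zero]
        exact Split.left (one_mem _)
      · have h0' : (a i).val ≠ 0 := fun h' => h0 ((hval0 i).mp h')
        refine (hconst i h0 ?_ x y).pow _
        rcases Nat.lt_or_gt_of_ne hi' with h1 | h1
        · have h5 := (Finset.sum_eq_zero_iff.mp hcase.1) i (Finset.mem_univ i)
          rw [if_pos ⟨by omega, h1⟩] at h5
          exact h5
        · have h5 := (Finset.sum_eq_zero_iff.mp hcase.2) i (Finset.mem_univ i)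
          rw [if_pos h1] at h5
          exact h5
    obtain ⟨r, hr, hrn⟩ := ((hc.pow h).mul hrest).root (NeZero.ne n)
    refine dominated_of_good hst hx hy (z := w * r) (mul_mem hw' hr) hind ?_
    rw [← Finset.prod_mul_prod_compl H, hprodH, mul_pow, hrn]
    have hval' : aeval ![x, y] (∏ i ∈ H, f i) = w ^ 2 * c := hval
    rw [hval', mul_pow, ← pow_mul, ← hnh]
    ring
  · -- the pencil
    have hXL1 : XL = 1 ∧ XG = 1 := by
      by_cases hL : XL = 0
      · exfalso
        have hG : XG ≠ 0 := fun hG => hcase ⟨hL, hG⟩
        have e1 : ∑ i, (if 0 < (a i).val ∧ 2 * (a i).val < n then α i * (n - 2 * (a i).val)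
            else 0) = 0 := by
          apply Finset.sum_eq_zero
          intro i hi
          split_ifs with h5
          · have h6 := (Finset.sum_eq_zero_iff.mp hL) i hi
            rw [if_pos h5] at h6
            rw [h6, zero_mul]
          · rfl
        rw [e1] at f4
        apply hG
        apply Finset.sum_eq_zero
        intro i hi
        have h6 := (Finset.sum_eq_zero_iff.mp f4) i hi
        split_ifs with h5
        · rw [if_pos h5] at h6
          rcases Nat.mul_eq_zero.mp h6 with h7 | h7
          · exact h7
          · omega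
        · rfl
      · by_cases hG : XG = 0
        · exfalso
          have e1 : ∑ i, (if n < 2 * (a i).val then α i * (2 * (a i).val - n) else 0) = 0 := by
            apply Finset.sum_eq_zero
            intro i hi
            split_ifs with h5
            · have h6 := (Finset.sum_eq_zero_iff.mp hG) i hi
              rw [if_pos h5] at h6
              rw [h6, zero_mul]
            · rfl
          rw [e1] at f4
          apply hL
          apply Finset.sum_eq_zero
          intro i hi
          have h6 := (Finset.sum_eq_zero_iff.mp f4.symm) i hi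
          split_ifs with h5
          · rw [if_pos h5] at h6
            rcases Nat.mul_eq_zero.mp h6 with h7 | h7
            · exact h7
            · omega
          · rfl
        · omega
    have hXH1 : XH = 1 := by omega
    have hL' : ∑ i ∈ Finset.univ.filter (fun i => 0 < (a i).val ∧ 2 * (a i).val < n), α i = 1 := by
      rw [Finset.sum_filter]
      exact hXL1.1
    have hG' : ∑ i ∈ Finset.univ.filter (fun i => n < 2 * (a i).val), α i = 1 := by
      rw [Finset.sum_filter]
      exact hXL1.2
    obtain ⟨p, hp, hp1, hpo⟩ := unit_sum hL'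
    obtain ⟨q, hq, hq1, hqo⟩ := unit_sum hG'
    rw [Finset.mem_filter] at hp hq
    have hpq : p ≠ q := by
      rintro rfl
      omega
    have hvv : (a p).val + (a q).val = n := by
      have e1 : ∑ i, (if n < 2 * (a i).val then α i * (2 * (a i).val - n) else 0) =
          2 * (a q).val - n := by
        rw [Finset.sum_eq_single q]
        · rw [if_pos hq.2, hq1, one_mul]
        · intro i _ hi
          split_ifs with h5
          · rw [hqo i (Finset.mem_filter.mpr ⟨Finset.mem_univ i, h5⟩) hi, zero_mul]
          · rfl
        · intro h5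
          exact absurd (Finset.mem_univ q) h5
      have e2 : ∑ i, (if 0 < (a i).val ∧ 2 * (a i).val < n then α i * (n - 2 * (a i).val) else 0) =
          n - 2 * (a p).val := by
        rw [Finset.sum_eq_single p]
        · rw [if_pos hp.2, hp1, one_mul]
        · intro i _ hi
          split_ifs with h5
          · rw [hpo i (Finset.mem_filter.mpr ⟨Finset.mem_univ i, h5⟩) hi, zero_mul]
          · rfl
        · intro h5
          exact absurd (Finset.mem_univ p) h5
      rw [e1, e2] at f4
      have := hp.2
      have := hq.2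
      omega
    have hap : a p ≠ 0 := fun h' => by
      have := (hval0 p).mpr h'
      omega
    have haq : a q ≠ 0 := fun h' => by
      have := (hval0 q).mpr h'
      omega
    obtain ⟨u₀, u₂, hu₂, hu⟩ := exists_lin (P := f p) (le_trans (hα p) (le_of_eq hp1)) (by
      have := hw p hap
      rw [hp1] at this
      exact this)
    obtain ⟨v₀, v₂, hv₂, hv⟩ := exists_lin (P := f q) (le_trans (hα q) (le_of_eq hq1)) (by
      have := hw q haq
      rw [hq1] at this
      exact this)
    obtain ⟨r₀, r₂, hr₂, hr⟩ := exists_lin (P := ∏ i ∈ H, f i) (le_trans hHdeg (le_of_eq hXH1)) (by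
      rw [hXH1] at hHwt
      exact hHwt)
    obtain ⟨x, hx, y, hy, w, hw', hind, c, hc, hval⟩ :=
      pencil_point hst hu₂ hv₂ hr₂ (a p).val (a q).val h (u₀ := u₀) (v₀ := v₀) (r₀ := r₀)
    rw [← hu Ω x y, ← hv Ω x y, ← hr Ω x y, hvv] at hval
    have hpH : p ∉ H := by
      rw [Finset.mem_filter]
      omega
    have hqH : q ∉ H := by
      rw [Finset.mem_filter]
      omega
    have hrest : Split s t (∏ i ∈ (Hᶜ.erase p).erase q, aeval ![x, y] (f i) ^ (a i).val) := by
      apply Split.prod
      intro i hi
      rw [Finset.mem_erase, Finset.mem_erase, Finset.mem_compl, Finset.mem_filter, not_and] at hi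
      obtain ⟨hiq, hip, hi⟩ := hi
      have hi' := hi (Finset.mem_univ i)
      by_cases h0 : a i = 0
      · rw [(hval0 i).mpr h0, pow_zero]
        exact Split.left (one_mem _)
      · have h0' : (a i).val ≠ 0 := fun h' => h0 ((hval0 i).mp h')
        refine (hconst i h0 ?_ x y).pow _
        rcases Nat.lt_or_gt_of_ne hi' with h1 | h1
        · exact hpo i (Finset.mem_filter.mpr ⟨Finset.mem_univ i, by omega, h1⟩) hip
        · exact hqo i (Finset.mem_filter.mpr ⟨Finset.mem_univ i, h1⟩) hiq
    obtain ⟨r, hr', hrn⟩ := (hc.mul hrest).root (NeZero.ne n)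
    refine dominated_of_good hst hx hy (z := w * r) (mul_mem hw' hr') hind ?_
    rw [← Finset.prod_mul_prod_compl H, hprodH,
      ← Finset.mul_prod_erase Hᶜ _ (Finset.mem_compl.mpr hpH),
      ← Finset.mul_prod_erase (Hᶜ.erase p) _
        (Finset.mem_erase.mpr ⟨hpq.symm, Finset.mem_compl.mpr hqH⟩), mul_pow, hrn]
    linear_combination -(∏ i ∈ (Hᶜ.erase p).erase q, aeval ![x, y] (f i) ^ (a i).val) * hval

end

end Run7.h622.Hz
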