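import Mathlib

/-!
# Quartic polynomials with a double root in a pencil
-/

namespace Run7.h622.Hz

open Polynomial

/-- the discriminant of a polynomial of degree at most four -/
def disc4 {R : Type*} [CommRing R] (a b c d e : R) : R :=
  256 * (a ^ 3 * e ^ 3) - 192 * (a ^ 2 * b * d * e ^ 2) - 128 * (a ^ 2 * c ^ 2 * e ^ 2) +
  144 * (a ^ 2 * c * d ^ 2 * e) - 27 * (a ^ 2 * d ^ 4) + 144 * (a * b ^ 2 * c * e ^ 2) -
  6 * (a * b ^ 2 * d ^ 2 * e) - 80 * (a * b * c ^ 2 * d * e) + 18 * (a * b * c * d ^ 3) +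
  16 * (a * c ^ 4 * e) - 4 * (a * c ^ 3 * d ^ 2) - 27 * (b ^ 4 * e ^ 2) + 18 * (b ^ 3 * c * d * e) -
  4 * (b ^ 3 * d ^ 3) - 4 * (b ^ 2 * c ^ 3 * e) + b ^ 2 * c ^ 2 * d ^ 2

theorem disc4_roots {R : Type*} [CommRing R] (a p q r s : R) :
    disc4 a (-(a * (p + q + r + s))) (a * (p * q + p * r + p * s + q * r + q * s + r * s))
      (-(a * (p * q * r + p * q * s + p * r * s + q * r * s))) (a * (p * q * r * s)) =
    a ^ 6 * ((p - q) * (p - r) * (p - s) * (q - r) * (q - s) * (r - s)) ^ 2 := by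
  unfold disc4
  ring

theorem disc4_roots3 {R : Type*} [CommRing R] (a p q r : R) :
    disc4 0 a (-(a * (p + q + r))) (a * (p * q + p * r + q * r)) (-(a * (p * q * r))) =
    a ^ 6 * ((p - q) * (p - r) * (q - r)) ^ 2 := by
  unfold disc4
  ring

variable {K : Type*} [Field K]

theorem coeffs4 {q : K[X]} {a4 a3 a2 a1 a0 : K}
    (h : q = C a4 * X ^ 4 + C a3 * X ^ 3 + C a2 * X ^ 2 + C a1 * X + C a0) :
    q.coeff 4 = a4 ∧ q.coeff 3 = a3 ∧ q.coeff 2 = a2 ∧ q.coeff 1 = a1 ∧ q.coeff 0 = a0 := by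
  subst h
  refine ⟨?_, ?_, ?_, ?_, ?_⟩ <;> simp [coeff_X, coeff_C, coeff_X_pow]

theorem eq_of_natDegree_le_four {q : K[X]} (h : q.natDegree ≤ 4) :
    q = C (q.coeff 4) * X ^ 4 + C (q.coeff 3) * X ^ 3 + C (q.coeff 2) * X ^ 2 + C (q.coeff 1) * X +
      C (q.coeff 0) := by
  conv_lhs => rw [q.as_sum_range_C_mul_X_pow' (n := 5) (by omega)]
  simp only [Finset.sum_range_succ, Finset.sum_range_zero, pow_zero, pow_one, mul_one, zero_add]
  ring

theorem exists_factor [IsAlgClosed K] {q : K[X]} {n : ℕ} (h : q.natDegree = n + 1) :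
    ∃ (r : K) (g : K[X]), q = (X - C r) * g ∧ g.natDegree = n := by
  have hdeg : q.degree ≠ 0 := by
    intro h0
    have h1 : q.natDegree = 0 := Polynomial.natDegree_eq_of_degree_eq_some h0
    omega
  obtain ⟨r, hr⟩ := IsAlgClosed.exists_root q hdeg
  obtain ⟨g, hg⟩ := dvd_iff_isRoot.mpr hr
  refine ⟨r, g, hg, ?_⟩
  have hg0 : g ≠ 0 := by
    rintro rfl
    rw [mul_zero] at hg
    rw [hg, natDegree_zero] at h
    omega
  rw [hg, natDegree_mul (X_sub_C_ne_zero r) hg0, natDegree_X_sub_C] at h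
  omega

/-- a polynomial of degree at most four with a vanishing discriminant is the product of a square and a
polynomial of degree at most two -/
theorem square_part [IsAlgClosed K] {q : K[X]} (hq : q.natDegree ≤ 4)
    (h : disc4 (q.coeff 4) (q.coeff 3) (q.coeff 2) (q.coeff 1) (q.coeff 0) = 0) :
    ∃ W R : K[X], W ≠ 0 ∧ R.natDegree ≤ 2 ∧ q = W ^ 2 * R := by
  rcases Nat.lt_or_ge q.natDegree 3 with h2 | h2
  · exact ⟨1, q, one_ne_zero, by omega, by ring⟩
  · have hlin : ∀ u v : K, (C u * (X - C v)).natDegree ≤ 2 := by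
      intro u v
      refine le_trans (natDegree_C_mul_le _ _) ?_
      rw [natDegree_X_sub_C]
      norm_num
    have hquad : ∀ u v w : K, (C u * ((X - C v) * (X - C w))).natDegree ≤ 2 := by
      intro u v w
      refine le_trans (natDegree_C_mul_le _ _) ?_
      refine le_trans natDegree_mul_le ?_
      rw [natDegree_X_sub_C, natDegree_X_sub_C]
    rcases Nat.lt_or_ge q.natDegree 4 with h3 | h3
    · have hn : q.natDegree = 2 + 1 := by omega
      obtain ⟨p, g, hg, hgn⟩ := exists_factor hn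
      obtain ⟨s, g', hg', hgn'⟩ := exists_factor hgn
      obtain ⟨t, g'', hg'', hgn''⟩ := exists_factor hgn'
      obtain ⟨a, ha⟩ := natDegree_eq_zero.mp hgn''
      have ha0 : a ≠ 0 := by
        rintro rfl
        rw [map_zero] at ha
        rw [hg, hg', hg'', ← ha, mul_zero, mul_zero, mul_zero, natDegree_zero] at hn
        omega
      have hfac : q = (X - C p) * ((X - C s) * ((X - C t) * C a)) := by
        rw [hg, hg', hg'', ← ha]
      have hexp : q = C 0 * X ^ 4 + C a * X ^ 3 + C (-(a * (p + s + t))) * X ^ 2 +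
          C (a * (p * s + p * t + s * t)) * X + C (-(a * (p * s * t))) := by
        rw [hfac]
        simp only [map_mul, map_add, map_neg, map_zero]
        ring
      obtain ⟨c4, c3, c2, c1, c0⟩ := coeffs4 hexp
      rw [c4, c3, c2, c1, c0, disc4_roots3] at h
      have h' := (mul_eq_zero.mp h).resolve_left (pow_ne_zero 6 ha0)
      have h'' := pow_eq_zero_iff (two_ne_zero) |>.mp h'
      rcases mul_eq_zero.mp h'' with h1 | h1
      · rcases mul_eq_zero.mp h1 with h0 | h0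
        · have e : p = s := sub_eq_zero.mp h0
          refine ⟨X - C p, C a * (X - C t), X_sub_C_ne_zero _, hlin _ _, ?_⟩
          rw [hfac, ← e]; ring
        · have e : p = t := sub_eq_zero.mp h0
          refine ⟨X - C p, C a * (X - C s), X_sub_C_ne_zero _, hlin _ _, ?_⟩
          rw [hfac, ← e]; ring
      · have e : s = t := sub_eq_zero.mp h1
        refine ⟨X - C s, C a * (X - C p), X_sub_C_ne_zero _, hlin _ _, ?_⟩
        rw [hfac, ← e]; ring
    · have hn : q.natDegree = 3 + 1 := by omega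
      obtain ⟨p, g, hg, hgn⟩ := exists_factor hn
      obtain ⟨s, g', hg', hgn'⟩ := exists_factor hgn
      obtain ⟨t, g'', hg'', hgn''⟩ := exists_factor hgn'
      obtain ⟨u, g₃, hg₃, hgn₃⟩ := exists_factor hgn''
      obtain ⟨a, ha⟩ := natDegree_eq_zero.mp hgn₃
      have ha0 : a ≠ 0 := by
        rintro rfl
        rw [map_zero] at ha
        rw [hg, hg', hg'', hg₃, ← ha, mul_zero, mul_zero, mul_zero, mul_zero, natDegree_zero] at hn
        omega
      have hfac : q = (X - C p) * ((X - C s) * ((X - C t) * ((X - C u) * C a))) := by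
        rw [hg, hg', hg'', hg₃, ← ha]
      have hexp : q = C a * X ^ 4 + C (-(a * (p + s + t + u))) * X ^ 3 +
          C (a * (p * s + p * t + p * u + s * t + s * u + t * u)) * X ^ 2 +
          C (-(a * (p * s * t + p * s * u + p * t * u + s * t * u))) * X +
          C (a * (p * s * t * u)) := by
        rw [hfac]
        simp only [map_mul, map_add, map_neg]
        ring
      obtain ⟨c4, c3, c2, c1, c0⟩ := coeffs4 hexp
      rw [c4, c3, c2, c1, c0, disc4_roots] at h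
      have h' := (mul_eq_zero.mp h).resolve_left (pow_ne_zero 6 ha0)
      have h'' := pow_eq_zero_iff (two_ne_zero) |>.mp h'
      simp only [mul_eq_zero, sub_eq_zero] at h''
      rcases h'' with ((((e | e) | e) | e) | e) | e
      · refine ⟨X - C p, C a * ((X - C t) * (X - C u)), X_sub_C_ne_zero _, hquad _ _ _, ?_⟩
        rw [hfac, ← e]; ring
      · refine ⟨X - C p, C a * ((X - C s) * (X - C u)), X_sub_C_ne_zero _, hquad _ _ _, ?_⟩
        rw [hfac, ← e]; ring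
      · refine ⟨X - C p, C a * ((X - C s) * (X - C t)), X_sub_C_ne_zero _, hquad _ _ _, ?_⟩
        rw [hfac, ← e]; ring
      · refine ⟨X - C s, C a * ((X - C p) * (X - C u)), X_sub_C_ne_zero _, hquad _ _ _, ?_⟩
        rw [hfac, ← e]; ring
      · refine ⟨X - C s, C a * ((X - C p) * (X - C t)), X_sub_C_ne_zero _, hquad _ _ _, ?_⟩
        rw [hfac, ← e]; ring
      · refine ⟨X - C t, C a * ((X - C p) * (X - C s)), X_sub_C_ne_zero _, hquad _ _ _, ?_⟩
        rw [hfac, ← e]; ring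

/-- the leading coefficient of the discriminant in the pencil -/
theorem disc4_coeff {a b c d e : K[X]} (ha : a.natDegree ≤ 3) (hb : b.natDegree ≤ 2)
    (hc : c.natDegree ≤ 2) (hd : d.natDegree ≤ 1) (he : e.natDegree ≤ 1) :
    (disc4 a b c d e).coeff 12 =
      16 * a.coeff 3 * e.coeff 1 * (c.coeff 2 ^ 2 - 4 * a.coeff 3 * e.coeff 1) ^ 2 := by
  have hp : ∀ {f : K[X]} {m : ℕ}, f.natDegree ≤ m → ∀ k : ℕ, (f ^ k).natDegree ≤ k * m :=
    fun h k => natDegree_pow_le_of_le k h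
  have hm : ∀ {f g : K[X]} {m k : ℕ}, f.natDegree ≤ m → g.natDegree ≤ k → (f * g).natDegree ≤ m + k :=
    fun h1 h2 => natDegree_mul_le_of_le h1 h2
  have hs : ∀ (N : ℕ) [N.AtLeastTwo] (f : K[X]),
      ((OfNat.ofNat N : K[X]) * f).coeff 12 = (OfNat.ofNat N : K) * f.coeff 12 := by
    intro N _ f
    rw [← Nat.cast_ofNat (R := K[X]), ← Nat.cast_ofNat (R := K), ← nsmul_eq_mul, coeff_smul,
      nsmul_eq_mul]
  have hz : ∀ (N : ℕ) [N.AtLeastTwo] {f : K[X]} {m : ℕ}, f.natDegree ≤ m → m < 12 →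
      ((OfNat.ofNat N : K[X]) * f).coeff 12 = 0 := by
    intro N _ f m h1 h2
    rw [hs, coeff_eq_zero_of_natDegree_lt (by omega), mul_zero]
  have t1 : (a ^ 3 * e ^ 3).coeff 12 = a.coeff 3 ^ 3 * e.coeff 1 ^ 3 := by
    have h := coeff_mul_add_eq_of_natDegree_le (hp ha 3) (hp he 3)
    rw [coeff_pow_of_natDegree_le ha, coeff_pow_of_natDegree_le he] at h
    exact h
  have t2 : (a ^ 2 * c ^ 2 * e ^ 2).coeff 12 = a.coeff 3 ^ 2 * c.coeff 2 ^ 2 * e.coeff 1 ^ 2 := by
    have h := coeff_mul_add_eq_of_natDegree_le (hm (hp ha 2) (hp hc 2)) (hp he 2)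
    rw [coeff_mul_add_eq_of_natDegree_le (hp ha 2) (hp hc 2), coeff_pow_of_natDegree_le ha,
      coeff_pow_of_natDegree_le hc, coeff_pow_of_natDegree_le he] at h
    exact h
  have t3 : (a * c ^ 4 * e).coeff 12 = a.coeff 3 * c.coeff 2 ^ 4 * e.coeff 1 := by
    have h := coeff_mul_add_eq_of_natDegree_le (hm ha (hp hc 4)) he
    rw [coeff_mul_add_eq_of_natDegree_le ha (hp hc 4), coeff_pow_of_natDegree_le hc] at h
    exact h
  have z1 : ((192 : K[X]) * (a ^ 2 * b * d * e ^ 2)).coeff 12 = 0 :=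
    hz 192 (hm (hm (hm (hp ha 2) hb) hd) (hp he 2)) (by norm_num)
  have z2 : ((144 : K[X]) * (a ^ 2 * c * d ^ 2 * e)).coeff 12 = 0 :=
    hz 144 (hm (hm (hm (hp ha 2) hc) (hp hd 2)) he) (by norm_num)
  have z3 : ((27 : K[X]) * (a ^ 2 * d ^ 4)).coeff 12 = 0 :=
    hz 27 (hm (hp ha 2) (hp hd 4)) (by norm_num)
  have z4 : ((144 : K[X]) * (a * b ^ 2 * c * e ^ 2)).coeff 12 = 0 :=
    hz 144 (hm (hm (hm ha (hp hb 2)) hc) (hp he 2)) (by norm_num)
  have z5 : ((6 : K[X]) * (a * b ^ 2 * d ^ 2 * e)).coeff 12 = 0 :=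
    hz 6 (hm (hm (hm ha (hp hb 2)) (hp hd 2)) he) (by norm_num)
  have z6 : ((80 : K[X]) * (a * b * c ^ 2 * d * e)).coeff 12 = 0 :=
    hz 80 (hm (hm (hm (hm ha hb) (hp hc 2)) hd) he) (by norm_num)
  have z7 : ((18 : K[X]) * (a * b * c * d ^ 3)).coeff 12 = 0 :=
    hz 18 (hm (hm (hm ha hb) hc) (hp hd 3)) (by norm_num)
  have z8 : ((4 : K[X]) * (a * c ^ 3 * d ^ 2)).coeff 12 = 0 :=
    hz 4 (hm (hm ha (hp hc 3)) (hp hd 2)) (by norm_num)
  have z9 : ((27 : K[X]) * (b ^ 4 * e ^ 2)).coeff 12 = 0 :=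
    hz 27 (hm (hp hb 4) (hp he 2)) (by norm_num)
  have z10 : ((18 : K[X]) * (b ^ 3 * c * d * e)).coeff 12 = 0 :=
    hz 18 (hm (hm (hm (hp hb 3) hc) hd) he) (by norm_num)
  have z11 : ((4 : K[X]) * (b ^ 3 * d ^ 3)).coeff 12 = 0 :=
    hz 4 (hm (hp hb 3) (hp hd 3)) (by norm_num)
  have z12 : ((4 : K[X]) * (b ^ 2 * c ^ 3 * e)).coeff 12 = 0 :=
    hz 4 (hm (hm (hp hb 2) (hp hc 3)) he) (by norm_num)
  have z13 : (b ^ 2 * c ^ 2 * d ^ 2).coeff 12 = 0 :=
    coeff_eq_zero_of_natDegree_lt (lt_of_le_of_lt (hm (hm (hp hb 2) (hp hc 2)) (hp hd 2))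
      (by norm_num))
  have s1 := hs 256 (a ^ 3 * e ^ 3)
  have s2 := hs 128 (a ^ 2 * c ^ 2 * e ^ 2)
  have s3 := hs 16 (a * c ^ 4 * e)
  unfold disc4
  simp only [coeff_add, coeff_sub, z1, z2, z3, z4, z5, z6, z7, z8, z9, z10, z11, z12, z13, s1, s2,
    s3, t1, t2, t3]
  ring

theorem disc4_eval {a b c d e : K[X]} (x : K) : (disc4 a b c d e).eval x =
    disc4 (a.eval x) (b.eval x) (c.eval x) (d.eval x) (e.eval x) := by
  unfold disc4
  simp

/-- in the family `q X ^ 4 c ^ 3 + B₂ X ^ 2 c ^ 2 + B₄ c + r` there is a polynomial with a double root -/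
theorem exists_double [IsAlgClosed K] [CharZero K] {q : K} {B₂ B₄ r : K[X]}
    (h2 : B₂.natDegree ≤ 2) (h4 : B₄.natDegree ≤ 4) (hr : r.natDegree ≤ 4) (hq : q ≠ 0)
    (hb : B₄.coeff 0 ≠ 0) (hne : B₂.coeff 0 ^ 2 ≠ 4 * q * B₄.coeff 0) :
    ∃ (c : K) (W R : K[X]), W ≠ 0 ∧ R.natDegree ≤ 2 ∧
      C (q * c ^ 3) * X ^ 4 + C (c ^ 2) * B₂ * X ^ 2 + C c * B₄ + r = W ^ 2 * R := by
  let a : K[X] := C q * X ^ 3 + C (B₂.coeff 2) * X ^ 2 + C (B₄.coeff 4) * X + C (r.coeff 4)
  let b : K[X] := C (B₂.coeff 1) * X ^ 2 + C (B₄.coeff 3) * X + C (r.coeff 3)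
  let c2 : K[X] := C (B₂.coeff 0) * X ^ 2 + C (B₄.coeff 2) * X + C (r.coeff 2)
  let d : K[X] := C (B₄.coeff 1) * X + C (r.coeff 1)
  let e : K[X] := C (B₄.coeff 0) * X + C (r.coeff 0)
  have ha : a.natDegree ≤ 3 := by simp only [a]; compute_degree
  have hb' : b.natDegree ≤ 2 := by simp only [b]; compute_degree
  have hc : c2.natDegree ≤ 2 := by simp only [c2]; compute_degree
  have hd : d.natDegree ≤ 1 := by simp only [d]; compute_degree
  have he : e.natDegree ≤ 1 := by simp only [e]; compute_degree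
  have ha3 : a.coeff 3 = q := by simp [a, coeff_X, coeff_C]
  have hc2 : c2.coeff 2 = B₂.coeff 0 := by simp [c2, coeff_X, coeff_C]
  have he1 : e.coeff 1 = B₄.coeff 0 := by simp [e, coeff_C]
  have hcoef := disc4_coeff ha hb' hc hd he
  rw [ha3, hc2, he1] at hcoef
  have hne' : (disc4 a b c2 d e).coeff 12 ≠ 0 := by
    rw [hcoef]
    have h16 : (16 : K) ≠ 0 := by norm_num
    exact mul_ne_zero (mul_ne_zero (mul_ne_zero h16 hq) hb) (pow_ne_zero 2 (sub_ne_zero.mpr hne))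
  have hdeg : (disc4 a b c2 d e).degree ≠ 0 := by
    intro h0
    have h1 : (disc4 a b c2 d e).natDegree = 0 := Polynomial.natDegree_eq_of_degree_eq_some h0
    exact hne' (coeff_eq_zero_of_natDegree_lt (by omega))
  obtain ⟨c, hc'⟩ := IsAlgClosed.exists_root _ hdeg
  rw [IsRoot, disc4_eval] at hc'
  have hB₂ : B₂ = C (B₂.coeff 2) * X ^ 2 + C (B₂.coeff 1) * X + C (B₂.coeff 0) := by
    conv_lhs => rw [B₂.as_sum_range_C_mul_X_pow' (n := 3) (by omega)]
    simp only [Finset.sum_range_succ, Finset.sum_range_zero, pow_zero, pow_one, mul_one, zero_add]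
    ring
  have hB₄ := eq_of_natDegree_le_four h4
  have hr' := eq_of_natDegree_le_four hr
  set Q : K[X] := C (q * c ^ 3) * X ^ 4 + C (c ^ 2) * B₂ * X ^ 2 + C c * B₄ + r with hQ
  have hexp : Q = C (a.eval c) * X ^ 4 + C (b.eval c) * X ^ 3 + C (c2.eval c) * X ^ 2 +
      C (d.eval c) * X + C (e.eval c) := by
    rw [hQ]
    conv_lhs => rw [hB₂, hB₄, hr']
    simp only [a, b, c2, d, e, eval_add, eval_mul, eval_C, eval_pow, eval_X, map_add, map_mul,
      map_pow]
    ring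
  obtain ⟨c4, c3, c2', c1, c0⟩ := coeffs4 hexp
  obtain ⟨W, R, hW, hR, hWR⟩ := square_part (q := Q) (by
    rw [hexp]
    compute_degree) (by rw [c4, c3, c2', c1, c0]; exact hc')
  exact ⟨c, W, R, hW, hR, hWR⟩

end Run7.h622.Hz
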