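import Pool.Agent.N197.Pln.QFibre
import Pool.Agent.Run7.h622.Hz.Quart

/-!
# Parabolas over `cl s` and their generic points
-/

namespace Run7.h622.Hz

open Pool.Agent.N197.Pln IntermediateField Polynomial

section

variable {Ω : Type*} [Field Ω] [Algebra ℂ Ω]

theorem coe_aeval {s : Ω} (x : cl s) (q : ℂ[X]) : ((aeval x q : cl s) : Ω) = aeval (x : Ω) q :=
  (Polynomial.aeval_algebraMap_apply Ω x q).symm

theorem complex_mem_cl (s : Ω) (c : ℂ) : algebraMap ℂ Ω c ∈ cl s := (cl s).algebraMap_mem c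

theorem transcendental_of_notMem {s x : Ω} (h : x ∉ cl s) : Transcendental ℂ x := by
  intro h1
  obtain ⟨c, hc⟩ := mem_bot_of_isAlgebraic h1
  exact h (hc ▸ complex_mem_cl s c)

theorem eq_zero_of_aeval {s x : Ω} (h : x ∉ cl s) {p : (cl s)[X]} (hp : aeval x p = 0) : p = 0 := by
  by_contra h0
  exact (transcendental_cl_iff_notMem.mpr h) ⟨p, h0, hp⟩

theorem aeval_mem_adjoin (x : Ω) (q : ℂ[X]) : aeval x q ∈ adjoin ℂ {x} := by
  have h1 : x ∈ adjoin ℂ {x} := mem_adjoin_simple_self ℂ x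
  have h2 : ((aeval (⟨x, h1⟩ : adjoin ℂ {x}) q : adjoin ℂ {x}) : Ω) = aeval x q :=
    (Polynomial.aeval_algebraMap_apply Ω (⟨x, h1⟩ : adjoin ℂ {x}) q).symm
  rw [← h2]
  exact SetLike.coe_mem _

/-- if `s` is a rational function of `x` and `y`, and `(x, s)` are independent, then so are `(x, y)` -/
theorem pair_of_pair {x y s : Ω} (h : AlgebraicIndependent ℂ ![x, s])
    (hs : IsAlgebraic (adjoin ℂ {x}) y → IsAlgebraic (adjoin ℂ {x}) s) :
    AlgebraicIndependent ℂ ![x, y] := by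
  rw [pair_iff] at h ⊢
  exact ⟨h.1, fun h1 => h.2 (hs h1)⟩

theorem isAlgebraic_of_mem {K : IntermediateField ℂ Ω} {x : Ω} (h : x ∈ K) : IsAlgebraic K x :=
  isAlgebraic_algebraMap (⟨x, h⟩ : K)

/-- a parabola over `cl s` with an algebraic point over `ℂ(x)` is defined over `ℂ` -/
theorem parabola_const {s x a b d : Ω} (ha : a ∈ cl s) (hb : b ∈ cl s) (hd : d ∈ cl s)
    (hx : x ∉ cl s) (h : ¬ AlgebraicIndependent ℂ ![x, d + b * x + a * x ^ 2]) :
    ∃ γ : ℂ[X], γ.natDegree ≤ 2 ∧ ∀ z : Ω, aeval z γ = d + b * z + a * z ^ 2 := by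
  classical
  rw [algebraicIndependent_iff] at h
  push Not at h
  obtain ⟨F, hF, hF0⟩ := h
  -- the polynomial in one variable over `cl s`
  let Φ : (cl s)[X] := MvPolynomial.aeval ![Polynomial.X,
    Polynomial.C (⟨d, hd⟩ : cl s) + Polynomial.C (⟨b, hb⟩ : cl s) * Polynomial.X +
      Polynomial.C (⟨a, ha⟩ : cl s) * Polynomial.X ^ 2] F
  have hΦ : ∀ z : Ω, aeval z Φ = MvPolynomial.aeval ![z, d + b * z + a * z ^ 2] F := by
    intro z
    have h1 := MvPolynomial.aeval_unique (((Polynomial.aeval z : (cl s)[X] →ₐ[cl s] Ω).restrictScalars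
      ℂ).comp (MvPolynomial.aeval (R := ℂ) ![Polynomial.X,
      Polynomial.C (⟨d, hd⟩ : cl s) + Polynomial.C (⟨b, hb⟩ : cl s) * Polynomial.X +
      Polynomial.C (⟨a, ha⟩ : cl s) * Polynomial.X ^ 2]))
    have h2 := DFunLike.congr_fun h1 F
    simp only [AlgHom.comp_apply, AlgHom.restrictScalars_apply] at h2
    simp only [Φ]
    rw [h2]
    congr 2
    funext i
    fin_cases i
    · simp
    · simp
  have hΦ0 : Φ = 0 := eq_zero_of_aeval hx (by rw [hΦ]; exact hF)
  have hval : ∀ z : Ω, MvPolynomial.aeval ![z, d + b * z + a * z ^ 2] F = 0 := by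
    intro z
    rw [← hΦ, hΦ0, map_zero]
  -- a point where `F` does not vanish
  obtain ⟨p, hp⟩ : ∃ p, MvPolynomial.eval p F ≠ 0 := by
    by_contra h
    push Not at h
    exact hF0 (MvPolynomial.funext fun x => by rw [h x, map_zero])
  -- the restriction to a horizontal line
  let H : ℂ[X] := MvPolynomial.aeval ![Polynomial.X, Polynomial.C (p 1)] F
  have hH : ∀ z : ℂ, H.eval z = MvPolynomial.eval ![z, p 1] F := by
    intro z
    have h1 := MvPolynomial.aeval_unique ((Polynomial.aeval z : ℂ[X] →ₐ[ℂ] ℂ).comp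
      (MvPolynomial.aeval (R := ℂ) ![Polynomial.X, Polynomial.C (p 1)]))
    have h2 := DFunLike.congr_fun h1 F
    simp only [AlgHom.comp_apply] at h2
    simp only [H]
    have h3 : MvPolynomial.eval ![z, p 1] F = MvPolynomial.aeval ![z, p 1] F := rfl
    rw [← Polynomial.coe_aeval_eq_eval, h2, h3]
    congr 2
    funext i
    fin_cases i
    · simp
    · simp
  have hpe : (![p 0, p 1] : Fin 2 → ℂ) = p := by
    funext i
    fin_cases i <;> rfl
  have hH0 : H ≠ 0 := by
    intro h0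
    apply hp
    have h1 := hH (p 0)
    rw [h0, eval_zero, hpe] at h1
    exact h1.symm
  have halg : ∀ z : ℂ, H.eval z ≠ 0 →
      d + b * algebraMap ℂ Ω z + a * algebraMap ℂ Ω z ^ 2 ∈ (⊥ : IntermediateField ℂ Ω) := by
    intro z hz
    let V : ℂ[X] := MvPolynomial.aeval ![Polynomial.C z, Polynomial.X] F
    have hV : ∀ y : Ω, aeval y V = MvPolynomial.aeval ![algebraMap ℂ Ω z, y] F := by
      intro y
      have h1 := MvPolynomial.aeval_unique ((Polynomial.aeval y : ℂ[X] →ₐ[ℂ] Ω).comp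
        (MvPolynomial.aeval (R := ℂ) ![Polynomial.C z, Polynomial.X]))
      have h2 := DFunLike.congr_fun h1 F
      simp only [AlgHom.comp_apply] at h2
      simp only [V]
      rw [h2]
      congr 2
      funext i
      fin_cases i
      · simp
      · simp
    have hV0 : V ≠ 0 := by
      intro h0
      apply hz
      rw [hH]
      have h1 := hV (algebraMap ℂ Ω (p 1))
      rw [h0, map_zero] at h1
      have h2 : (![algebraMap ℂ Ω z, algebraMap ℂ Ω (p 1)] : Fin 2 → Ω) =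
          fun i => algebraMap ℂ Ω (![z, p 1] i) := by
        funext i
        fin_cases i <;> simp
      rw [h2] at h1
      have h3 := MvPolynomial.aeval_algebraMap_apply Ω ![z, p 1] F
      have h4 : MvPolynomial.aeval (fun i => algebraMap ℂ Ω (![z, p 1] i)) F =
          algebraMap ℂ Ω (MvPolynomial.aeval ![z, p 1] F) := h3
      rw [h4] at h1
      exact (FaithfulSMul.algebraMap_eq_zero_iff ℂ Ω).mp h1.symm
    have h1 : IsAlgebraic ℂ (d + b * algebraMap ℂ Ω z + a * algebraMap ℂ Ω z ^ 2) :=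
      ⟨V, hV0, by rw [hV, hval]⟩
    obtain ⟨c, hc⟩ := mem_bot_of_isAlgebraic h1
    rw [IntermediateField.mem_bot]
    exact ⟨c, hc⟩
  obtain ⟨x₁, h₁⟩ := Infinite.exists_notMem_finset H.roots.toFinset
  obtain ⟨x₂, h₂⟩ := Infinite.exists_notMem_finset (insert x₁ H.roots.toFinset)
  obtain ⟨x₃, h₃⟩ := Infinite.exists_notMem_finset (insert x₂ (insert x₁ H.roots.toFinset))
  simp only [Finset.mem_insert, not_or] at h₂ h₃
  have hroot : ∀ z, z ∉ H.roots.toFinset → H.eval z ≠ 0 := by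
    intro z hz h0
    apply hz
    rw [Multiset.mem_toFinset, mem_roots hH0]
    exact h0
  have e₁ := halg x₁ (hroot _ h₁)
  have e₂ := halg x₂ (hroot _ h₂.2)
  have e₃ := halg x₃ (hroot _ h₃.2.2)
  have n12 : algebraMap ℂ Ω (x₂ - x₁) ≠ 0 := by
    rw [Ne, FaithfulSMul.algebraMap_eq_zero_iff]
    exact sub_ne_zero.mpr h₂.1
  have n13 : algebraMap ℂ Ω (x₃ - x₁) ≠ 0 := by
    rw [Ne, FaithfulSMul.algebraMap_eq_zero_iff]
    exact sub_ne_zero.mpr h₃.2.1
  have n23 : algebraMap ℂ Ω (x₃ - x₂) ≠ 0 := by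
    rw [Ne, FaithfulSMul.algebraMap_eq_zero_iff]
    exact sub_ne_zero.mpr h₃.1
  have hc : ∀ z : ℂ, algebraMap ℂ Ω z ∈ (⊥ : IntermediateField ℂ Ω) := fun z =>
    IntermediateField.algebraMap_mem _ z
  have ha' : a ∈ (⊥ : IntermediateField ℂ Ω) := by
    have h1 := div_mem (sub_mem (div_mem (sub_mem e₃ e₁) (hc (x₃ - x₁)))
      (div_mem (sub_mem e₂ e₁) (hc (x₂ - x₁)))) (hc (x₃ - x₂))
    convert h1 using 1
    rw [map_sub] at n12 n13 n23
    simp only [map_sub]
    field_simp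
    ring
  have hb' : b ∈ (⊥ : IntermediateField ℂ Ω) := by
    have h1 := sub_mem (div_mem (sub_mem e₂ e₁) (hc (x₂ - x₁))) (mul_mem ha' (hc (x₁ + x₂)))
    convert h1 using 1
    rw [map_sub] at n12
    simp only [map_sub, map_add]
    field_simp
    ring
  have hd' : d ∈ (⊥ : IntermediateField ℂ Ω) := by
    have h1 := sub_mem e₁ (add_mem (mul_mem hb' (hc x₁)) (mul_mem ha' (pow_mem (hc x₁) 2)))
    convert h1 using 1
    ring
  rw [IntermediateField.mem_bot] at ha' hb' hd'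
  obtain ⟨a', ha'⟩ := ha'
  obtain ⟨b', hb'⟩ := hb'
  obtain ⟨d', hd'⟩ := hd'
  refine ⟨C d' + C b' * X + C a' * X ^ 2, by compute_degree, ?_⟩
  intro z
  simp only [map_add, map_mul, map_pow, aeval_C, aeval_X, ha', hb', hd']

end

end Run7.h622.Hz
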