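import Pool.Agent.Run7.h622.Hz.Para

/-!
# Double planes `z ^ 2 = q₃ y ^ 3 + q₂ (x) y ^ 2 + q₁ (x) y + q₀ (x)` with `deg q_j ≤ 6 - 2 j`
-/

namespace Run7.h622.Hz

open Pool.Agent.N197.Pln IntermediateField Polynomial

section

variable {Ω : Type} [Field Ω] [Algebra ℂ Ω]

/-- the value of the cubic polynomial in `y` with coefficients depending on `x` -/
noncomputable def cub (q₃ : ℂ) (q₂ q₁ q₀ : ℂ[X]) (x y : Ω) : Ω :=
  algebraMap ℂ Ω q₃ * y ^ 3 + aeval x q₂ * y ^ 2 + aeval x q₁ * y + aeval x q₀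

/-- there is a generic point over the compositum of `cl s` and `cl t` whose value is a product, up to a
square -/
def GoodPoint (s t : Ω) (F : Ω → Ω → Ω) : Prop :=
  ∃ x ∈ cl s ⊔ cl t, ∃ y ∈ cl s ⊔ cl t, ∃ w ∈ cl s ⊔ cl t, AlgebraicIndependent ℂ ![x, y] ∧
    ∃ c, Split s t c ∧ F x y = w ^ 2 * c

theorem split_quartic {K : Type*} [Field K] [IsAlgClosed K] {d : K[X]} (hd : d.natDegree ≤ 4) :
    ∃ g h : K[X], g ≠ 0 ∧ g.natDegree ≤ 2 ∧ h.natDegree ≤ 2 ∧ d = g * h := by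
  rcases Nat.lt_or_ge d.natDegree 3 with h2 | h2
  · exact ⟨1, d, one_ne_zero, by simp, by omega, by ring⟩
  · obtain ⟨m, hm⟩ : ∃ m, d.natDegree = m + 1 + 1 := ⟨d.natDegree - 2, by omega⟩
    obtain ⟨p, g, hg, hgn⟩ := exists_factor hm
    obtain ⟨s, g', hg', hgn'⟩ := exists_factor hgn
    refine ⟨(X - C p) * (X - C s), g', mul_ne_zero (X_sub_C_ne_zero _) (X_sub_C_ne_zero _), ?_,
      by omega, by rw [hg, hg']; ring⟩
    refine le_trans natDegree_mul_le ?_
    rw [natDegree_X_sub_C, natDegree_X_sub_C]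

/-- the branch curve contains a parabola -/
theorem weier_linear [IsAlgClosed Ω] {s t : Ω} (hst : AlgebraicIndependent ℂ ![s, t]) {q₃ : ℂ} {q₂ q₁ q₀ γ : ℂ[X]}
    (h₂ : q₂.natDegree ≤ 2) (h₁ : q₁.natDegree ≤ 4) (hγ : γ.natDegree ≤ 2)
    (h : C q₃ * γ ^ 3 + q₂ * γ ^ 2 + q₁ * γ + q₀ = 0) : GoodPoint s t (cub q₃ q₂ q₁ q₀) := by
  have hs : Transcendental ℂ s := ((pair_iff s t).mp hst).1
  let b : ℂ[X] := q₂ + 3 * C q₃ * γ
  let d : ℂ[X] := 3 * C q₃ * γ ^ 2 + 2 * q₂ * γ + q₁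
  have hb : b.natDegree ≤ 2 := by
    simp only [b]
    compute_degree
    all_goals omega
  have hd : d.natDegree ≤ 4 := by
    simp only [d]
    refine natDegree_add_le_of_degree_le (natDegree_add_le_of_degree_le ?_ ?_) h₁
    · have h3 : (3 * C q₃ : ℂ[X]).natDegree ≤ 0 := by compute_degree
      exact natDegree_mul_le_of_le h3 (natDegree_pow_le_of_le 2 hγ)
    · have h3 : (2 * q₂ : ℂ[X]).natDegree ≤ 2 := by
        have : (2 : ℂ[X]).natDegree ≤ 0 := by compute_degree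
        exact le_trans (natDegree_mul_le_of_le this h₂) (by norm_num)
      exact natDegree_mul_le_of_le h3 hγ
  obtain ⟨g, h', hg0, hg, hh, hgh⟩ := split_quartic hd
  let s' : cl s := ⟨s, self_mem_cl s⟩
  let φ := algebraMap ℂ (cl s)
  let p : (cl s)[X] := C (φ q₃ * s' ^ 2) * g.map φ + C s' * b.map φ + h'.map φ
  have hp : p.natDegree ≤ 2 := by
    simp only [p]
    refine natDegree_add_le_of_degree_le (natDegree_add_le_of_degree_le ?_ ?_) ?_
    · exact le_trans (natDegree_C_mul_le _ _) (le_trans natDegree_map_le hg)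
    · exact le_trans (natDegree_C_mul_le _ _) (le_trans natDegree_map_le hb)
    · exact le_trans natDegree_map_le hh
  obtain ⟨x, hx, hx', hsp⟩ := exists_split_values hst {()} (fun _ => p) (by simpa using hp)
  have hsp' : Split s t (aeval x p) := hsp () (by simp)
  have hle : cl s ≤ cl s ⊔ cl t := le_sup_left
  have hsup : ∀ q : ℂ[X], aeval x q ∈ cl s ⊔ cl t := by
    intro q
    have h2 : ((aeval (⟨x, hx⟩ : (cl s ⊔ cl t : IntermediateField ℂ Ω)) q :
        (cl s ⊔ cl t : IntermediateField ℂ Ω)) : Ω) = aeval x q :=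
      (Polynomial.aeval_algebraMap_apply Ω (⟨x, hx⟩ : (cl s ⊔ cl t : IntermediateField ℂ Ω)) q).symm
    rw [← h2]
    exact SetLike.coe_mem _
  have hind : AlgebraicIndependent ℂ ![x, s] := pair_symm (pair_of_cl (self_mem_cl s) hs hx')
  have hgx : aeval x g ≠ 0 := by
    intro h0
    exact ((pair_iff x s).mp hind).1 ⟨g, hg0, h0⟩
  refine ⟨x, hx, aeval x γ + s * aeval x g, add_mem (hsup _) (mul_mem (hle (self_mem_cl s)) (hsup _)),
    aeval x g, hsup _, ?_, s * aeval x p, (Split.left (self_mem_cl s)).mul hsp', ?_⟩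
  · refine pair_of_pair hind fun hy => ?_
    have h1 : s = (aeval x γ + s * aeval x g - aeval x γ) * (aeval x g)⁻¹ := by
      field_simp
      ring
    have a1 : IsAlgebraic (adjoin ℂ {x}) (aeval x γ) := isAlgebraic_of_mem (aeval_mem_adjoin x γ)
    have a2 : IsAlgebraic (adjoin ℂ {x}) (aeval x g)⁻¹ :=
      isAlgebraic_of_mem (inv_mem (aeval_mem_adjoin x g))
    rw [h1]
    exact (hy.sub a1).mul a2
  · have e1 : aeval x p = algebraMap ℂ Ω q₃ * s ^ 2 * aeval x g + s * aeval x b + aeval x h' := by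
      simp only [p, map_add, map_mul, aeval_C, aeval_map_algebraMap, φ]
      rfl
    have e2 : aeval x d = aeval x g * aeval x h' := by rw [hgh, map_mul]
    have e3 : aeval x d = 3 * algebraMap ℂ Ω q₃ * aeval x γ ^ 2 + 2 * aeval x q₂ * aeval x γ +
        aeval x q₁ := by
      simp only [d, map_add, map_mul, map_pow, aeval_C, map_ofNat]
    have e4 : aeval x b = aeval x q₂ + 3 * algebraMap ℂ Ω q₃ * aeval x γ := by
      simp only [b, map_add, map_mul, aeval_C, map_ofNat]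
    have e5 := congrArg (aeval x) h
    simp only [map_add, map_mul, map_pow, aeval_C, map_zero] at e5
    unfold cub
    rw [e1, e4]
    rw [e3] at e2
    linear_combination e5 + s * aeval x g * e2

/-- the branch curve has a multiple component -/
theorem weier_double {s t : Ω} (hst : AlgebraicIndependent ℂ ![s, t]) {q₃ : ℂ} {q₂ q₁ q₀ : ℂ[X]}
    {ρ σ : Ω} (hρ : ρ ∈ cl s) (hσ : σ ∈ cl s)
    (h : ∀ y, cub q₃ q₂ q₁ q₀ s y = algebraMap ℂ Ω q₃ * (y - ρ) ^ 2 * (y - σ)) :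
    GoodPoint s t (cub q₃ q₂ q₁ q₀) := by
  have hs : Transcendental ℂ s := ((pair_iff s t).mp hst).1
  have hle : cl s ≤ cl s ⊔ cl t := le_sup_left
  have hle' : cl t ≤ cl s ⊔ cl t := le_sup_right
  refine ⟨s, hle (self_mem_cl s), σ + t, add_mem (hle hσ) (hle' (self_mem_cl t)), σ + t - ρ,
    sub_mem (add_mem (hle hσ) (hle' (self_mem_cl t))) (hle hρ), ?_, algebraMap ℂ Ω q₃ * t, ?_, ?_⟩
  · apply pair_of_cl (self_mem_cl s) hs
    intro h0
    apply notMem_cl hst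
    have := sub_mem h0 hσ
    rwa [add_sub_cancel_left] at this
  · exact (Split.left (complex_mem_cl s q₃)).mul (Split.right (self_mem_cl t))
  · rw [h]
    ring

theorem aeval_mem_sup {s t x : Ω} (hx : x ∈ cl s ⊔ cl t) (p : (cl s)[X]) :
    aeval x p ∈ cl s ⊔ cl t := by
  rw [aeval_eq_sum_range]
  apply sum_mem
  intro i _
  rw [Algebra.smul_def]
  exact mul_mem ((le_sup_left : cl s ≤ cl s ⊔ cl t) (p.coeff i).2) (pow_mem hx i)

theorem aeval_taylor {s : Ω} (s' : cl s) (x : Ω) (q : ℂ[X]) :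
    aeval x (taylor s' (q.map (algebraMap ℂ (cl s)))) = aeval ((s' : Ω) + x) q := by
  rw [taylor_apply, aeval_comp, aeval_map_algebraMap, add_comm]
  congr 1
  simp

theorem taylor_coeff_zero' {s : Ω} (s' : cl s) (q : ℂ[X]) :
    (taylor s' (q.map (algebraMap ℂ (cl s)))).coeff 0 = aeval s' q := by
  rw [taylor_coeff_zero, eval_map_algebraMap]

theorem natDegree_taylor_le {s : Ω} (s' : cl s) {q : ℂ[X]} {n : ℕ} (h : q.natDegree ≤ n) :
    (taylor s' (q.map (algebraMap ℂ (cl s)))).natDegree ≤ n := by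
  rw [natDegree_taylor]
  exact le_trans natDegree_map_le h

/-- the generic case: a parabola which is tangent to the branch curve at two points -/
theorem weier_distinct [IsAlgClosed Ω] {s t : Ω} (hst : AlgebraicIndependent ℂ ![s, t]) {q₃ : ℂ}
    {q₂ q₁ q₀ : ℂ[X]} (h₂ : q₂.natDegree ≤ 2) (h₁ : q₁.natDegree ≤ 4) (h₀ : q₀.natDegree ≤ 6)
    (h₃ : q₃ ≠ 0)
    (hγ : ∀ γ : ℂ[X], γ.natDegree ≤ 2 → C q₃ * γ ^ 3 + q₂ * γ ^ 2 + q₁ * γ + q₀ ≠ 0)
    {ρ σ τ : cl s}
    (hA₂ : aeval (⟨s, self_mem_cl s⟩ : cl s) q₂ = -(algebraMap ℂ (cl s) q₃ * (ρ + σ + τ)))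
    (hA₁ : aeval (⟨s, self_mem_cl s⟩ : cl s) q₁ =
      algebraMap ℂ (cl s) q₃ * (ρ * σ + ρ * τ + σ * τ))
    (hA₀ : aeval (⟨s, self_mem_cl s⟩ : cl s) q₀ = -(algebraMap ℂ (cl s) q₃ * (ρ * σ * τ)))
    (hρσ : ρ ≠ σ) (hρτ : ρ ≠ τ) (hστ : σ ≠ τ) : GoodPoint s t (cub q₃ q₂ q₁ q₀) := by
  have _ := isAlgClosed_cl s
  have hs : Transcendental ℂ s := ((pair_iff s t).mp hst).1
  have hle : cl s ≤ cl s ⊔ cl t := le_sup_left
  set s' : cl s := ⟨s, self_mem_cl s⟩ with hs'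
  set k : cl s := algebraMap ℂ (cl s) q₃ with hk
  have hk0 : k ≠ 0 := by
    rw [hk, Ne, FaithfulSMul.algebraMap_eq_zero_iff]
    exact h₃
  let Q₂ : (cl s)[X] := taylor s' (q₂.map (algebraMap ℂ (cl s)))
  let Q₁ : (cl s)[X] := taylor s' (q₁.map (algebraMap ℂ (cl s)))
  let Q₀ : (cl s)[X] := taylor s' (q₀.map (algebraMap ℂ (cl s)))
  have d₂ : Q₂.natDegree ≤ 2 := natDegree_taylor_le s' h₂
  have d₁ : Q₁.natDegree ≤ 4 := natDegree_taylor_le s' h₁
  have d₀ : Q₀.natDegree ≤ 6 := natDegree_taylor_le s' h₀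
  have c₂ : Q₂.coeff 0 = -(k * (ρ + σ + τ)) := by rw [taylor_coeff_zero', hA₂]
  have c₁ : Q₁.coeff 0 = k * (ρ * σ + ρ * τ + σ * τ) := by rw [taylor_coeff_zero', hA₁]
  have c₀ : Q₀.coeff 0 = -(k * (ρ * σ * τ)) := by rw [taylor_coeff_zero', hA₀]
  have hD : k * ((ρ - σ) * (ρ - τ)) ≠ 0 :=
    mul_ne_zero hk0 (mul_ne_zero (sub_ne_zero.mpr hρσ) (sub_ne_zero.mpr hρτ))
  let m : cl s := -(Q₂.coeff 1 * ρ ^ 2 + Q₁.coeff 1 * ρ + Q₀.coeff 1) / (k * ((ρ - σ) * (ρ - τ)))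
  have hm : m * (k * ((ρ - σ) * (ρ - τ))) =
      -(Q₂.coeff 1 * ρ ^ 2 + Q₁.coeff 1 * ρ + Q₀.coeff 1) := div_mul_cancel₀ _ hD
  let l : (cl s)[X] := C m * X + C ρ
  have hl : l.natDegree ≤ 1 := by simp only [l]; compute_degree
  have hl0 : l.coeff 0 = ρ := by simp [l]
  have hl1 : l.coeff 1 = m := by simp [l, coeff_C]
  have hck : (C k : (cl s)[X]).natDegree ≤ 0 := by compute_degree
  have h3k : (3 * C k : (cl s)[X]).natDegree ≤ 0 := by compute_degree
  have h2Q : (2 * Q₂ : (cl s)[X]).natDegree ≤ 2 := by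
    have : (2 : (cl s)[X]).natDegree ≤ 0 := by compute_degree
    exact le_trans (natDegree_mul_le_of_le this d₂) (by norm_num)
  let B₂ : (cl s)[X] := 3 * C k * l + Q₂
  let B₄ : (cl s)[X] := 3 * C k * l ^ 2 + 2 * Q₂ * l + Q₁
  let B₆ : (cl s)[X] := C k * l ^ 3 + Q₂ * l ^ 2 + Q₁ * l + Q₀
  have dB₂ : B₂.natDegree ≤ 2 :=
    natDegree_add_le_of_degree_le (le_trans (natDegree_mul_le_of_le h3k hl) (by norm_num)) d₂
  have dB₄ : B₄.natDegree ≤ 4 :=
    natDegree_add_le_of_degree_le (natDegree_add_le_of_degree_le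
      (le_trans (natDegree_mul_le_of_le h3k (natDegree_pow_le_of_le 2 hl)) (by norm_num))
      (le_trans (natDegree_mul_le_of_le h2Q hl) (by norm_num))) d₁
  have dB₆ : B₆.natDegree ≤ 6 :=
    natDegree_add_le_of_degree_le (natDegree_add_le_of_degree_le (natDegree_add_le_of_degree_le
      (le_trans (natDegree_mul_le_of_le hck (natDegree_pow_le_of_le 3 hl)) (by norm_num))
      (le_trans (natDegree_mul_le_of_le d₂ (natDegree_pow_le_of_le 2 hl)) (by norm_num)))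
      (le_trans (natDegree_mul_le_of_le d₁ hl) (by norm_num))) d₀
  have e₂ : B₂.coeff 0 = 3 * k * ρ - k * (ρ + σ + τ) := by
    simp only [B₂, coeff_add, mul_coeff_zero, coeff_C_zero, hl0, c₂, coeff_ofNat_zero]
    ring
  have e₄ : B₄.coeff 0 = k * ((ρ - σ) * (ρ - τ)) := by
    simp only [B₄, coeff_add, mul_coeff_zero, coeff_C_zero, hl0, c₂, c₁, coeff_ofNat_zero, pow_two]
    ring
  have e₆ : B₆.coeff 0 = 0 := by
    simp only [B₆, coeff_add, mul_coeff_zero, coeff_C_zero, hl0, c₂, c₁, c₀, pow_succ, pow_zero,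
      one_mul]
    ring
  have e₆' : B₆.coeff 1 = 0 := by
    simp only [B₆, coeff_add, mul_coeff_zero, mul_coeff_one, coeff_C_zero, coeff_C_succ, hl0, hl1,
      c₂, c₁, pow_succ, pow_zero, one_mul]
    linear_combination hm
  have hX : B₆ = B₆.divX.divX * X ^ 2 := by
    have e1 := divX_mul_X_add B₆
    have e2 := divX_mul_X_add B₆.divX
    rw [coeff_divX, zero_add, e₆', map_zero, add_zero] at e2
    rw [e₆, map_zero, add_zero] at e1
    conv_lhs => rw [← e1, ← e2]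
    ring
  have dr : B₆.divX.divX.natDegree ≤ 4 := by
    rw [natDegree_divX_eq_natDegree_tsub_one, natDegree_divX_eq_natDegree_tsub_one]
    omega
  obtain ⟨c, W, R, -, hR, hWR⟩ := exists_double dB₂ dB₄ dr hk0 (by rw [e₄]; exact hD) (by
    rw [e₂, e₄]
    intro h0
    have h1 : (k * (σ - τ)) ^ 2 = 0 := by linear_combination h0
    have h2 := (mul_eq_zero.mp (pow_eq_zero_iff (two_ne_zero) |>.mp h1)).resolve_left hk0
    exact hστ (sub_eq_zero.mp h2))
  obtain ⟨ξ, hξ, hξ', hsp⟩ := exists_split_values hst {()} (fun _ => R) (by simpa using hR)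
  have hsp' : Split s t (aeval ξ R) := hsp () (by simp)
  have hx : s + ξ ∉ cl s := by
    intro h
    apply hξ'
    have := sub_mem h (self_mem_cl s)
    rwa [add_sub_cancel_left] at this
  refine ⟨s + ξ, add_mem (hle (self_mem_cl s)) hξ, (ρ : Ω) + m * ξ + c * ξ ^ 2,
    add_mem (add_mem (hle ρ.2) (mul_mem (hle m.2) hξ)) (mul_mem (hle c.2) (pow_mem hξ 2)),
    ξ * aeval ξ W, mul_mem hξ (aeval_mem_sup hξ W), ?_, aeval ξ R, hsp', ?_⟩
  · by_contra hcon
    have hy : (ρ : Ω) + m * ξ + c * ξ ^ 2 = (ρ - m * s + c * s ^ 2 : Ω) + (m - 2 * c * s) * (s + ξ) +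
        c * (s + ξ) ^ 2 := by ring
    rw [hy] at hcon
    obtain ⟨γ, hγ2, hγv⟩ := parabola_const (s := s) c.2
      (sub_mem m.2 (mul_mem (mul_mem (ofNat_mem (cl s) 2) c.2) (self_mem_cl s)))
      (add_mem (sub_mem ρ.2 (mul_mem m.2 (self_mem_cl s))) (mul_mem c.2 (pow_mem (self_mem_cl s) 2)))
      hx hcon
    have hγs : aeval s γ = (ρ : Ω) := by
      rw [hγv]
      ring
    apply hγ γ hγ2
    have h4 : aeval s (C q₃ * γ ^ 3 + q₂ * γ ^ 2 + q₁ * γ + q₀) = 0 := by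
      simp only [map_add, map_mul, map_pow, aeval_C, hγs]
      have i₂ := congrArg (fun z : cl s => (z : Ω)) hA₂
      have i₁ := congrArg (fun z : cl s => (z : Ω)) hA₁
      have i₀ := congrArg (fun z : cl s => (z : Ω)) hA₀
      simp only [coe_aeval] at i₂ i₁ i₀
      have j₂ : aeval s q₂ = -((k : Ω) * (ρ + σ + τ)) := i₂
      have j₁ : aeval s q₁ = (k : Ω) * (ρ * σ + ρ * τ + σ * τ) := i₁
      have j₀ : aeval s q₀ = -((k : Ω) * (ρ * σ * τ)) := i₀
      have jk : algebraMap ℂ Ω q₃ = (k : Ω) := rfl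
      rw [j₂, j₁, j₀, jk]
      ring
    by_contra h5
    exact hs ⟨_, h5, h4⟩
  · have v₂ : aeval (s + ξ) q₂ = aeval ξ Q₂ := (aeval_taylor s' ξ q₂).symm
    have v₁ : aeval (s + ξ) q₁ = aeval ξ Q₁ := (aeval_taylor s' ξ q₁).symm
    have v₀ : aeval (s + ξ) q₀ = aeval ξ Q₀ := (aeval_taylor s' ξ q₀).symm
    have jk : algebraMap ℂ Ω q₃ = (k : Ω) := rfl
    have w₁ := congrArg (aeval ξ) hWR
    have w₂ := congrArg (aeval ξ) hX
    have hkc : ∀ z : cl s, algebraMap (cl s) Ω z = (z : Ω) := fun _ => rfl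
    simp only [B₂, B₄, B₆, l, map_add, map_mul, map_pow, aeval_C, aeval_X, map_ofNat, hkc] at w₁ w₂
    unfold cub
    rw [v₂, v₁, v₀, jk]
    linear_combination ξ ^ 2 * w₁ + w₂

theorem weier [IsAlgClosed Ω] {s t : Ω} (hst : AlgebraicIndependent ℂ ![s, t]) {q₃ : ℂ}
    {q₂ q₁ q₀ : ℂ[X]} (h₂ : q₂.natDegree ≤ 2) (h₁ : q₁.natDegree ≤ 4) (h₀ : q₀.natDegree ≤ 6) :
    GoodPoint s t (cub q₃ q₂ q₁ q₀) := by
  have hs : Transcendental ℂ s := ((pair_iff s t).mp hst).1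
  have hle : cl s ≤ cl s ⊔ cl t := le_sup_left
  by_cases hγ : ∃ γ : ℂ[X], γ.natDegree ≤ 2 ∧ C q₃ * γ ^ 3 + q₂ * γ ^ 2 + q₁ * γ + q₀ = 0
  · obtain ⟨γ, h1, h2⟩ := hγ
    exact weier_linear hst h₂ h₁ h1 h2
  push Not at hγ
  let s' : cl s := ⟨s, self_mem_cl s⟩
  by_cases h₃ : q₃ = 0
  · obtain ⟨y, hy, hy', hsp⟩ := exists_split_values hst {()}
      (fun _ => C (aeval s' q₂) * X ^ 2 + C (aeval s' q₁) * X + C (aeval s' q₀)) (by
        rw [Finset.sum_singleton]
        compute_degree)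
    refine ⟨s, hle (self_mem_cl s), y, hy, 1, one_mem _, pair_of_cl (self_mem_cl s) hs hy', _,
      hsp () (by simp), ?_⟩
    have hkc : ∀ z : cl s, algebraMap (cl s) Ω z = (z : Ω) := fun _ => rfl
    simp only [map_add, map_mul, map_pow, aeval_C, aeval_X, hkc, coe_aeval, s']
    unfold cub
    rw [h₃, map_zero]
    ring
  · have _ := isAlgClosed_cl s
    set k : cl s := algebraMap ℂ (cl s) q₃ with hk
    have hk0 : k ≠ 0 := by
      rw [hk, Ne, FaithfulSMul.algebraMap_eq_zero_iff]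
      exact h₃
    have hdeg : (C k * X ^ 3 + C (aeval s' q₂) * X ^ 2 + C (aeval s' q₁) * X +
        C (aeval s' q₀)).natDegree = 2 + 1 := natDegree_cubic hk0
    obtain ⟨ρ, g, hg, hgn⟩ := exists_factor hdeg
    obtain ⟨σ, g', hg', hgn'⟩ := exists_factor hgn
    obtain ⟨τ, g'', hg'', hgn''⟩ := exists_factor hgn'
    obtain ⟨a, ha⟩ := natDegree_eq_zero.mp hgn''
    have hexp : C k * X ^ 3 + C (aeval s' q₂) * X ^ 2 + C (aeval s' q₁) * X + C (aeval s' q₀) =
        C 0 * X ^ 4 + C a * X ^ 3 + C (-(a * (ρ + σ + τ))) * X ^ 2 +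
          C (a * (ρ * σ + ρ * τ + σ * τ)) * X + C (-(a * (ρ * σ * τ))) := by
      rw [hg, hg', hg'', ← ha]
      simp only [map_mul, map_add, map_neg, map_zero]
      ring
    obtain ⟨-, c3, c2, c1, c0⟩ := coeffs4 hexp
    obtain ⟨-, b3, b2, b1, b0⟩ := coeffs4 (q := C k * X ^ 3 + C (aeval s' q₂) * X ^ 2 +
      C (aeval s' q₁) * X + C (aeval s' q₀)) (a4 := 0) (a3 := k) (a2 := aeval s' q₂)
      (a1 := aeval s' q₁) (a0 := aeval s' q₀) (by rw [map_zero, zero_mul, zero_add])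
    have hak : a = k := by rw [← c3, b3]
    rw [c2, hak] at b2
    rw [c1, hak] at b1
    rw [c0, hak] at b0
    have hval : ∀ y, cub q₃ q₂ q₁ q₀ s y =
        algebraMap ℂ Ω q₃ * ((y - ρ) * (y - σ) * (y - τ)) := by
      intro y
      have i₂ := congrArg (fun z : cl s => (z : Ω)) b2
      have i₁ := congrArg (fun z : cl s => (z : Ω)) b1
      have i₀ := congrArg (fun z : cl s => (z : Ω)) b0
      simp only [coe_aeval] at i₂ i₁ i₀
      have j₂ : -((k : Ω) * (ρ + σ + τ)) = aeval s q₂ := i₂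
      have j₁ : (k : Ω) * (ρ * σ + ρ * τ + σ * τ) = aeval s q₁ := i₁
      have j₀ : -((k : Ω) * (ρ * σ * τ)) = aeval s q₀ := i₀
      have jk : algebraMap ℂ Ω q₃ = (k : Ω) := rfl
      unfold cub
      rw [← j₂, ← j₁, ← j₀, jk]
      ring
    by_cases hρσ : ρ = σ
    · refine weier_double hst (ρ := ρ) (σ := τ) ρ.2 τ.2 fun y => ?_
      rw [hval, ← hρσ]
      ring
    by_cases hρτ : ρ = τ
    · refine weier_double hst (ρ := ρ) (σ := σ) ρ.2 σ.2 fun y => ?_
      rw [hval, ← hρτ]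
      ring
    by_cases hστ : σ = τ
    · refine weier_double hst (ρ := σ) (σ := ρ) σ.2 ρ.2 fun y => ?_
      rw [hval, ← hστ]
      ring
    exact weier_distinct hst h₂ h₁ h₀ h₃ hγ b2.symm b1.symm b0.symm hρσ hρτ hστ

/-! ### Polynomials in two variables as polynomials in the second variable -/

/-- the coefficient of `y ^ j`, as a polynomial in `x` -/
noncomputable def ycoeff (P : MvPolynomial (Fin 2) ℂ) (j : ℕ) : ℂ[X] :=
  ∑ m ∈ P.support.filter (fun m => m 1 = j), monomial (m 0) (P.coeff m)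

theorem natDegree_ycoeff_le {P : MvPolynomial (Fin 2) ℂ} {j N : ℕ}
    (h : ∀ m ∈ P.support, m 1 = j → m 0 ≤ N) : (ycoeff P j).natDegree ≤ N := by
  unfold ycoeff
  apply natDegree_sum_le_of_forall_le
  intro m hm
  rw [Finset.mem_filter] at hm
  exact le_trans (natDegree_monomial_le _) (h m hm.1 hm.2)

theorem aeval_eq_sum_ycoeff {E : Type*} [CommRing E] [Algebra ℂ E] {P : MvPolynomial (Fin 2) ℂ} {N : ℕ}
    (h : P.degreeOf 1 ≤ N) (x y : E) :
    MvPolynomial.aeval ![x, y] P = ∑ j ∈ Finset.range (N + 1), aeval x (ycoeff P j) * y ^ j := by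
  classical
  have h1 : MvPolynomial.aeval ![x, y] P =
      ∑ m ∈ P.support, algebraMap ℂ E (P.coeff m) * (x ^ m 0 * y ^ m 1) := by
    rw [MvPolynomial.aeval_def, MvPolynomial.eval₂_eq']
    apply Finset.sum_congr rfl
    intro m _
    rw [Fin.prod_univ_two]
    rfl
  rw [h1, ← Finset.sum_fiberwise_of_maps_to (s := P.support) (t := Finset.range (N + 1))
    (g := fun m => m 1)]
  · apply Finset.sum_congr rfl
    intro j _
    unfold ycoeff
    rw [map_sum, Finset.sum_mul]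
    apply Finset.sum_congr rfl
    intro m hm
    rw [Finset.mem_filter] at hm
    rw [aeval_monomial, hm.2]
    ring
  · intro m hm
    rw [Finset.mem_range]
    exact Nat.lt_succ_of_le (le_trans (MvPolynomial.monomial_le_degreeOf 1 hm) h)

/-- the double cover of `F₂` branched along the negative section and a curve which is disjoint from it -/
theorem goodPoint_cubic [IsAlgClosed Ω] {s t : Ω} (hst : AlgebraicIndependent ℂ ![s, t])
    {P : MvPolynomial (Fin 2) ℂ} (h1 : P.degreeOf 1 ≤ 3)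
    (h2 : ∀ m ∈ P.support, m 0 + 2 * m 1 ≤ 6) :
    GoodPoint s t (fun x y => MvPolynomial.aeval ![x, y] P) := by
  have d₃ : (ycoeff P 3).natDegree ≤ 0 := natDegree_ycoeff_le fun m hm h => by
    have := h2 m hm
    omega
  have d₂ : (ycoeff P 2).natDegree ≤ 2 := natDegree_ycoeff_le fun m hm h => by
    have := h2 m hm
    omega
  have d₁ : (ycoeff P 1).natDegree ≤ 4 := natDegree_ycoeff_le fun m hm h => by
    have := h2 m hm
    omega
  have d₀ : (ycoeff P 0).natDegree ≤ 6 := natDegree_ycoeff_le fun m hm h => by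
    have := h2 m hm
    omega
  obtain ⟨k, hk⟩ := natDegree_eq_zero.mp (Nat.le_zero.mp d₃)
  obtain ⟨x, hx, y, hy, w, hw, hind, c, hc, hval⟩ := weier hst (q₃ := k) d₂ d₁ d₀
  refine ⟨x, hx, y, hy, w, hw, hind, c, hc, ?_⟩
  rw [← hval]
  beta_reduce
  rw [aeval_eq_sum_ycoeff h1]
  simp only [Finset.sum_range_succ, Finset.sum_range_zero, ← hk, aeval_C]
  unfold cub
  ring

end

end Run7.h622.Hz
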